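import Pool.Agent.Helper64.K4.PO
import Pool.Agent.Helper85.KB.B4

/-!
# Expansion around equal parts for a partial partition
-/

set_option autoImplicit false

open Finset

namespace KT

open KF KC

section
variable {t : Fin 6 → ℝ} {s : ℝ}

theorem P_exp (h0 : ∑ i, t i = 0) (i : Fin 6) :
    ∑ j, ∑ k, (s / 6 + t j) * (s / 6 + t k) * b2r (D6 i j k) =
      10 / 36 * s ^ 2 - 2 / 3 * s * t i + KB.qq t i := by
  have h1 : ∀ j k, (s / 6 + t j) * (s / 6 + t k) * b2r (D6 i j k) = s ^ 2 / 36 * b2r (D6 i j k) +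
      (s * t j / 6) * b2r (D6 i j k) + (s * t k / 6) * b2r (D6 i j k) +
      t j * t k * b2r (D6 i j k) := by
    intro j k; ring
  simp only [h1, sum_add_distrib]
  have e : ∑ j, s * t j / 6 = 0 := by rw [← sum_div, ← mul_sum, h0]; simp
  have e1 : ∑ j, ∑ k, s ^ 2 / 36 * b2r (D6 i j k) = 10 / 36 * s ^ 2 := by
    have := KB.sum_D i (fun _ => s ^ 2 / 36)
    rw [this]
    simp only [sum_const, card_univ, Fintype.card_fin, nsmul_eq_mul]
    push_cast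
    ring
  have e2 := KB.sum_D i (fun j => s * t j / 6)
  have e3 := KB.sum_D' i (fun j => s * t j / 6)
  rw [e] at e2 e3
  rw [e1, e2, e3]
  unfold KB.qq
  ring

/-- Expansion of the blow-up density around equal parts. -/
theorem BB_exp (h0 : ∑ i, t i = 0) : BB (fun i => s / 6 + t i) =
    10 / 36 * s ^ 3 - s * ∑ i, t i ^ 2 + ∑ i, t i * KB.qq t i := by
  have h1 : ∀ i, ∑ j, ∑ k, (s / 6 + t i) * (s / 6 + t j) * (s / 6 + t k) * b2r (D6 i j k) =
      (s / 6 + t i) * (10 / 36 * s ^ 2 - 2 / 3 * s * t i + KB.qq t i) := by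
    intro i
    rw [← P_exp h0 i]
    simp only [mul_sum]
    exact sum_congr rfl fun j _ => sum_congr rfl fun k _ => by ring
  unfold BB
  simp only [h1]
  have h2 : ∀ i, (s / 6 + t i) * (10 / 36 * s ^ 2 - 2 / 3 * s * t i + KB.qq t i) =
      10 / 216 * s ^ 3 + t i * (10 / 36 * s ^ 2 - s ^ 2 / 9) - 2 / 3 * s * t i ^ 2 +
        s / 6 * KB.qq t i + t i * KB.qq t i := fun i => by ring
  simp only [h2, sum_add_distrib, sum_sub_distrib, ← sum_mul, ← mul_sum, h0,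
    KB.sum_qq h0, sum_const, card_univ, Fintype.card_fin, nsmul_eq_mul]
  push_cast
  ring

theorem cub_exp (h0 : ∑ i, t i = 0) : ∑ i, (s / 6 + t i) ^ 3 =
    s ^ 3 / 36 + s * (∑ i, t i ^ 2) / 2 + ∑ i, t i ^ 3 := by
  have h1 : ∀ i, (s / 6 + t i) ^ 3 = s ^ 3 / 216 + t i * (s ^ 2 / 12) + s / 2 * t i ^ 2 + t i ^ 3 :=
    fun i => by ring
  simp only [h1, sum_add_distrib, ← sum_mul, ← mul_sum, h0, sum_const, card_univ,
    Fintype.card_fin, nsmul_eq_mul]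
  push_cast
  ring

end

section
variable {V : Type} [Fintype V] {κ : V → Option (Fin 6)} {E : V → V → V → Bool} {w : V → ℝ}

/-- Deviation of the sizes. -/
noncomputable def tO (w : V → ℝ) (κ : V → Option (Fin 6)) (i : Fin 6) : ℝ :=
  xsO w κ i - (1 - unO w κ) / 6

theorem sum_tO (hw : Wt w) : ∑ i, tO w κ i = 0 := by
  unfold tO
  rw [sum_sub_distrib, sum_xsO hw]
  simp only [sum_const, card_univ, Fintype.card_fin, nsmul_eq_mul]
  push_cast
  ring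

theorem xsO_tO (i : Fin 6) : xsO w κ i = (1 - unO w κ) / 6 + tO w κ i := by unfold tO; ring

theorem BB_tO (hw : Wt w) : BB (xsO w κ) = 10 / 36 * (1 - unO w κ) ^ 3 -
    (1 - unO w κ) * ∑ i, tO w κ i ^ 2 + ∑ i, tO w κ i * KB.qq (tO w κ) i := by
  rw [← BB_exp (sum_tO hw)]
  congr 1
  funext i
  exact xsO_tO i

theorem cub_tO (hw : Wt w) : ∑ i, xsO w κ i ^ 3 = (1 - unO w κ) ^ 3 / 36 +
    (1 - unO w κ) * (∑ i, tO w κ i ^ 2) / 2 + ∑ i, tO w κ i ^ 3 := by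
  rw [← cub_exp (sum_tO hw)]
  exact sum_congr rfl fun i _ => by rw [xsO_tO]

/-- The defect of the inside of a class. -/
noncomputable def dfO (E : V → V → V → Bool) (w : V → ℝ) (κ : V → Option (Fin 6)) (i : Fin 6) : ℝ :=
  L * xsO w κ i ^ 3 - dens E (fun v => w v * icO κ i v)

theorem dfO_nn (hE : K4m E) (hw : ∀ v, 0 ≤ w v) (i : Fin 6) : 0 ≤ dfO E w κ i :=
  sub_nonneg.2 (inner_le hE hw i)

/-- The main inequality near equal parts. -/
theorem postO (ho : Opt E w) {θ : ℝ} (hθ : L - θ ≤ dens E w) (hθ0 : 0 ≤ θ) (hL : L ≤ 3 / 10)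
    (hg : unO w κ ≤ 1 / 50) (ht : ∀ i, |tO w κ i| ≤ 1 / 60) :
    35 / 36 * (1 - 3 * unO w κ) * (L - 2 / 7) + 3 / 5 * ∑ i, tO w κ i ^ 2 +
      ∑ i, dfO E w κ i + muO E w κ ≤ beO E w κ + 43 / 50 * unO w κ ^ 2 + θ := by
  have hw := ho.wt
  set g := unO w κ with hgdef
  have g0 : 0 ≤ g := unO_nn hw.nn
  have h1 := glob_le (κ := κ) ho
  have h2 : ∑ i, dens E (fun v => w v * icO κ i v) =
      L * ∑ i, xsO w κ i ^ 3 - ∑ i, dfO E w κ i := by
    unfold dfO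
    rw [sum_sub_distrib, mul_sum]
    ring
  rw [h2, BB_tO hw, cub_tO hw, ← hgdef] at h1
  set S := ∑ i, tO w κ i ^ 2 with hS
  have hS0 : 0 ≤ S := sum_nonneg fun i _ => sq_nonneg _
  have h3 := le_trans (le_abs_self _) (KB.tq_le ht)
  have h4 := KB.cub_le ht
  rw [← hS] at h3 h4
  have hL0 := L_nonneg
  set D := ∑ i, dfO E w κ i with hD
  set C1 := ∑ i, tO w κ i * KB.qq (tO w κ) i with hC1
  set C2 := ∑ i, tO w κ i ^ 3 with hC2
  have h5 : L * C2 ≤ L * (1 / 60 * S) := mul_le_mul_of_nonneg_left h4 hL0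
  have h6 : L * (1 / 60 * S) ≤ 3 / 10 * (1 / 60 * S) :=
    mul_le_mul_of_nonneg_right hL (by positivity)
  have h7 : (L - θ) * (1 - 3 * g) ≤ dens E w * (1 - 3 * g) :=
    mul_le_mul_of_nonneg_right hθ (by linarith)
  have h8 : 0 ≤ θ * g := mul_nonneg hθ0 g0
  -- quadratic part
  have h9 : L * ((1 - g) * S / 2) ≤ 3 / 10 * ((1 - g) * S / 2) := by
    refine mul_le_mul_of_nonneg_right hL ?_
    have : 0 ≤ (1 - g) * S := mul_nonneg (by linarith) hS0
    linarith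
  have h10 : 0 ≤ (1 / 50 - g) * S := mul_nonneg (by linarith) hS0
  -- constant part
  have h11 : (1 - g) ^ 3 ≤ 1 - 3 * g + 3 * g ^ 2 := by
    have : 0 ≤ g ^ 3 := by positivity
    nlinarith
  have h12 : (10 / 36 + L / 36) * (1 - g) ^ 3 ≤ (10 / 36 + L / 36) * (1 - 3 * g + 3 * g ^ 2) :=
    mul_le_mul_of_nonneg_left h11 (by positivity)
  have h13 : L * g ^ 2 ≤ 3 / 10 * g ^ 2 := mul_le_mul_of_nonneg_right hL (sq_nonneg g)
  have e1 : 10 / 36 * (1 - g) ^ 3 - (1 - g) * S + C1 - muO E w κ + beO E w κ +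
      (L * ((1 - g) ^ 3 / 36 + (1 - g) * S / 2 + C2) - D) =
      (10 / 36 + L / 36) * (1 - g) ^ 3 - (1 - g) * S + L * ((1 - g) * S / 2) + C1 + L * C2 -
        muO E w κ + beO E w κ - D := by ring
  rw [e1] at h1
  have e2 : 35 / 36 * (1 - 3 * g) * (L - 2 / 7) = L * (1 - 3 * g) -
      (10 / 36 + L / 36) * (1 - 3 * g + 3 * g ^ 2) + (10 / 12 * g ^ 2 + L * g ^ 2 / 12) := by
    ring
  have e3 : (L - θ) * (1 - 3 * g) = L * (1 - 3 * g) - θ + 3 * (θ * g) := by ring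
  have g2 : 0 ≤ g ^ 2 := sq_nonneg g
  rw [e2]
  rw [e3] at h7
  nlinarith

/-- With everything assigned and no more bad than missing triples the bound follows. -/
theorem L_le_of (ho : Opt E w) {θ : ℝ} (hθ : L - θ ≤ dens E w) (hθ0 : 0 ≤ θ) (hL : L ≤ 3 / 10)
    (ht : ∀ i, |tO w κ i| ≤ 1 / 60) (hg : unO w κ = 0) (hb : beO E w κ ≤ muO E w κ) :
    L ≤ 2 / 7 + 36 / 35 * θ := by
  have h := postO (κ := κ) ho hθ hθ0 hL (by rw [hg]; norm_num) ht
  rw [hg] at h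
  have h1 : 0 ≤ ∑ i, tO w κ i ^ 2 := sum_nonneg fun i _ => sq_nonneg _
  have h2 : 0 ≤ ∑ i, dfO E w κ i := sum_nonneg fun i _ => dfO_nn ho.free ho.wt.nn i
  nlinarith

end

end KT
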