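import Pool.Agent.Helper64.K4.WP5

/-!
# Transfer of the bad triples, and the inequality for an unassigned vertex
-/

set_option autoImplicit false

open Finset hiding dens

namespace KW

open KF KT
open KC (wi wo wi_add_wo le_dens_out)

section
variable {V : Type} [Fintype V] {E : V → V → V → Bool} {w : V → ℝ} {κ : V → Option (Fin 6)}
  {α : Fin 6 → ℝ}

theorem amgm3 {p q r s : ℝ} (hp : 0 ≤ p) (hq : 0 ≤ q) (hr : 0 ≤ r) (hs : p + q + r ≤ 3 * s) :
    p * q * r ≤ s ^ 3 := by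
  have h27 : 27 * (p * q * r) ≤ (p + q + r) ^ 3 := by
    nlinarith [mul_nonneg hp (sq_nonneg (q - r)), mul_nonneg hq (sq_nonneg (p - r)),
      mul_nonneg hr (sq_nonneg (p - q)), mul_nonneg (add_nonneg (add_nonneg hp hq) hr)
      (add_nonneg (add_nonneg (sq_nonneg (p - q)) (sq_nonneg (q - r))) (sq_nonneg (p - r)))]
  have h28 : (p + q + r) ^ 3 ≤ (3 * s) ^ 3 := pow_le_pow_left₀ (by positivity) hs 3
  have e : (3 * s) ^ 3 = 27 * s ^ 3 := by ring
  linarith

/-- The factor of a triple which is not inside one class. -/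
theorem rh_bad (hw : ∀ v, 0 ≤ w v) (hα : ∀ i, 0 ≤ α i) (h1 : ∑ i, α i = 1) {m : ℝ}
    (hm : 0 < m) (hx : ∀ i, m ≤ xsO w κ i) {i j l : Fin 6} (h : ¬ (i = j ∧ j = l)) :
    rh w κ α i * rh w κ α j * rh w κ α l ≤ (1 + 2 * unO w κ / (3 * m)) ^ 3 := by
  have hg := unO_nn (κ := κ) hw
  have a1 : ∀ i, rh w κ α i ≤ 1 + unO w κ / m * α i := by
    intro i
    unfold rh
    have : unO w κ * α i / xsO w κ i ≤ unO w κ * α i / m :=
      div_le_div_of_nonneg_left (mul_nonneg hg (hα i)) hm (hx i)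
    have e : unO w κ / m * α i = unO w κ * α i / m := by ring
    linarith
  have r0 : ∀ i, 0 ≤ rh w κ α i := fun i => by linarith [rh_ge (κ := κ) hw hα i]
  have one : ∀ i, α i ≤ 1 := fun i => by
    rw [← h1]
    exact single_le_sum (f := α) (fun l _ => hα l) (mem_univ i)
  have two : ∀ i j, i ≠ j → α i + α j ≤ 1 := fun i j hij => by
    rw [← h1]
    have : ∑ l ∈ ({i, j} : Finset (Fin 6)), α l ≤ ∑ l, α l :=
      sum_le_sum_of_subset_of_nonneg (subset_univ _) fun l _ _ => hα l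
    rwa [sum_pair hij] at this
  have a2 : α i + α j + α l ≤ 2 := by
    by_cases hij : i = j
    · subst hij
      have hil : i ≠ l := fun e => h ⟨rfl, e⟩
      linarith [two i l hil, one i]
    · linarith [two i j hij, one l]
  refine amgm3 (r0 i) (r0 j) (r0 l) ?_
  have hgm : 0 ≤ unO w κ / m := div_nonneg hg hm.le
  have h5 : unO w κ / m * (α i + α j + α l) ≤ unO w κ / m * 2 :=
    mul_le_mul_of_nonneg_left a2 hgm
  have e3 : 3 * (1 + 2 * unO w κ / (3 * m)) = 3 + unO w κ / m * 2 := by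
    field_simp
  rw [e3]
  linarith [a1 i, a1 j, a1 l]

/-- Bad triples in the environment. -/
theorem be_le (hw : ∀ v, 0 ≤ w v) (hα : ∀ i, 0 ≤ α i) (h1 : ∑ i, α i = 1) {m : ℝ} (hm : 0 < m)
    (hx : ∀ i, m ≤ xsO w κ i) :
    KB.bet E (wp w κ α) (kt κ) ≤ (1 + 2 * unO w κ / (3 * m)) ^ 3 * beO E w κ := by
  unfold KB.bet KB.bb beO
  rw [mul_sum]
  refine sum_le_sum fun x _ => ?_
  rw [mul_sum, mul_sum]
  refine sum_le_sum fun y _ => ?_
  rw [mul_sum, mul_sum]
  refine sum_le_sum fun z _ => ?_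
  have hg := unO_nn (κ := κ) hw
  have hc : 0 ≤ (1 + 2 * unO w κ / (3 * m)) ^ 3 := by positivity
  have h4 : ∀ b : Bool, 0 ≤ w x * w y * w z * (b2r b * b2r (E x y z)) := fun b =>
    mul_nonneg (mul_nonneg (mul_nonneg (hw x) (hw y)) (hw z))
      (mul_nonneg (b2r_nonneg _) (b2r_nonneg _))
  cases hX : κ x with
  | none =>
    rw [wp_none hX, zero_mul]
    exact mul_nonneg hc (h4 _)
  | some a =>
    cases hy : κ y with
    | none =>
      rw [wp_none hy, zero_mul, zero_mul, mul_zero]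
      exact mul_nonneg hc (h4 _)
    | some b =>
      cases hz : κ z with
      | none =>
        rw [wp_none hz, mul_zero, zero_mul, mul_zero]
        exact mul_nonneg hc (h4 _)
      | some c =>
        have e0 : kt κ x = a := by unfold kt; rw [hX]; rfl
        have e1 : kt κ y = b := by unfold kt; rw [hy]; rfl
        have e2 : kt κ z = c := by unfold kt; rw [hz]; rfl
        rw [wp_some hX, wp_some hy, wp_some hz, e0, e1, e2]
        change w x * rh w κ α a * (w y * rh w κ α b * (w z * rh w κ α c) *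
          (b2r (KB.bad a b c) * b2r (E x y z))) ≤
          (1 + 2 * unO w κ / (3 * m)) ^ 3 * (w x * w y * w z * (b2r (KB.bad a b c) *
          b2r (E x y z)))
        by_cases hD : KB.bad a b c = true
        · have hne : ¬ (a = b ∧ b = c) := by
            rintro ⟨rfl, rfl⟩
            unfold KB.bad KB.inn at hD
            simp at hD
          have h3 := rh_bad (κ := κ) hw hα h1 hm hx hne
          have h5 := mul_le_mul_of_nonneg_right h3 (h4 (KB.bad a b c))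
          linarith
        · have : KB.bad a b c = false := by simpa using hD
          rw [this]
          simp

/-- **The inequality for an unassigned vertex.** -/
theorem vertex (ho : Opt E w) (hx : ∀ i, 0 < xsO w κ i) (hα : ∀ i, 0 ≤ α i)
    (h1s : ∑ i, α i = 1) {ε : ℝ} (hd : L - dens E w ≤ ε ^ 2) (h0 : 0 < ε) (h1 : ε ≤ 1)
    {v : V} {i : Fin 6} (hg : 0 < unO w κ) (hgx : 2 * unO w κ < xsO w κ i)
    (hv : lam E w κ α i + 2 * EK E w (up w κ α) / unO w κ - 11 / 6 * unO w κ ^ 2 ≤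
      deg E (wp w κ α) v)
    {SC VN CPi CPo Qb : ℝ} (hSC : 0 ≤ SC) (hQ0 : 0 ≤ Qb)
    (hQ1 : 7 * Qb * (xsO w κ i * rh w κ α i) ≤ 36 * SC * (xsO w κ i - 2 * unO w κ))
    (hlink : 36 * SC * (deg E (wp w κ α) v - KB.PP (wp w κ α) (kt κ) i) ≤
      VN + 72 / 7 * SC * KB.xs (wp w κ α) (kt κ) i ^ 2 +
        CPi * (3 * KB.mi E (wp w κ α) (kt κ) i) +
        CPo * (KB.mu E (wp w κ α) (kt κ) - 3 * KB.mi E (wp w κ α) (kt κ) i) +
        Qb * (7 * inj E (wp w κ α) (kt κ) v i - 2 * KB.xs (wp w κ α) (kt κ) i ^ 2)) :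
    36 * SC * (2 * EK E w (up w κ α) / unO w κ) ≤ VN + 66 * SC * unO w κ ^ 2 +
      CPi * (3 * KB.mi E (wp w κ α) (kt κ) i) +
      CPo * (KB.mu E (wp w κ α) (kt κ) - 3 * KB.mi E (wp w κ α) (kt κ) i) +
      36 * SC * (KB.mi E (wp w κ α) (kt κ) i / KB.xs (wp w κ α) (kt κ) i) +
      (36 * SC - 7 * Qb) * (df E (wp w κ α) (kt κ) i / KB.xs (wp w κ α) (kt κ) i) +
      4 * Qb * unO w κ * KB.xs (wp w κ α) (kt κ) i ^ 2 / (xsO w κ i - 2 * unO w κ) +
      144 * SC * rh w κ α i * ε := by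
  have hw := ho.wt.nn
  have hx' : ∀ i, xsO w κ i ≠ 0 := fun i => (hx i).ne'
  have hW := Wt_wp (α := α) ho.wt hx' hα h1s
  have hρ := rh_ge (κ := κ) hw hα i
  have hxp : 0 < KB.xs (wp w κ α) (kt κ) i := by
    rw [xs_rh hx']
    exact mul_pos (by linarith) (hx i)
  exact vertex_real (l := L) L_ge hxp hgx hρ h0.le hg (KB.bi_nn hW i)
    (D := df E (wp w κ α) (kt κ) i) rfl (df_nn ho.free hW i) (lam_eq hx' i) hv hSC hQ0 hQ1 hlink
    (exch_wp ho hx hα hd h0 h1 i hgx.le v)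

/-- The last error term. -/
theorem last_le {g x x' : ℝ} (hg : 0 ≤ g) (h1 : x' ≤ x + g) (h2 : 18 * g ≤ x') (h3 : 0 < x') :
    x' ^ 2 / (x - 2 * g) ≤ x' + 18 / 5 * g := by
  have h4 : 0 < x' - 3 * g := by linarith
  have h5 : x' - 3 * g ≤ x - 2 * g := by linarith
  have h6 : x' ^ 2 / (x - 2 * g) ≤ x' ^ 2 / (x' - 3 * g) :=
    div_le_div_of_nonneg_left (sq_nonneg _) h4 h5
  refine h6.trans ?_
  rw [div_le_iff₀ h4]
  nlinarith

/-- The inequality for an unassigned vertex, simplified: the bounds of the multiplier, and the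
missing triples in one term. -/
theorem vertex2 (ho : Opt E w) (hx : ∀ i, 0 < xsO w κ i) (hα : ∀ i, 0 ≤ α i)
    (h1s : ∑ i, α i = 1) {ε : ℝ} (hd : L - dens E w ≤ ε ^ 2) (h0 : 0 < ε) (h1 : ε ≤ 1)
    {v : V} {i : Fin 6} (hg : 0 < unO w κ)
    (hgx : 18 * unO w κ ≤ xsO w κ i)
    (hv : lam E w κ α i + 2 * EK E w (up w κ α) / unO w κ - 11 / 6 * unO w κ ^ 2 ≤
      deg E (wp w κ α) v)
    {SC VN CPi CPo Qb QL QH : ℝ} (hSC : 0 ≤ SC) (hQL : QL ≤ Qb) (hQ0 : 0 ≤ Qb) (hQH : Qb ≤ QH)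
    (hQ1 : 7 * QH * (xsO w κ i * rh w κ α i) ≤ 36 * SC * (xsO w κ i - 2 * unO w κ))
    (hCP : CPo ≤ CPi + 12 * SC / KB.xs (wp w κ α) (kt κ) i)
    (hlink : 36 * SC * (deg E (wp w κ α) v - KB.PP (wp w κ α) (kt κ) i) ≤
      VN + 72 / 7 * SC * KB.xs (wp w κ α) (kt κ) i ^ 2 +
        CPi * (3 * KB.mi E (wp w κ α) (kt κ) i) +
        CPo * (KB.mu E (wp w κ α) (kt κ) - 3 * KB.mi E (wp w κ α) (kt κ) i) +
        Qb * (7 * inj E (wp w κ α) (kt κ) v i - 2 * KB.xs (wp w κ α) (kt κ) i ^ 2)) :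
    72 * SC * (EK E w (up w κ α) / unO w κ) ≤ VN + 66 * SC * unO w κ ^ 2 +
      (CPi + 12 * SC / KB.xs (wp w κ α) (kt κ) i) * KB.mu E (wp w κ α) (kt κ) +
      (36 * SC - 7 * QL) * (df E (wp w κ α) (kt κ) i / KB.xs (wp w κ α) (kt κ) i) +
      4 * QH * unO w κ * (KB.xs (wp w κ α) (kt κ) i + 18 / 5 * unO w κ) +
      144 * SC * rh w κ α i * ε := by
  have hw := ho.wt.nn
  have hx' : ∀ i, xsO w κ i ≠ 0 := fun i => (hx i).ne'
  have hW := Wt_wp (α := α) ho.wt hx' hα h1s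
  have hρ := rh_ge (κ := κ) hw hα i
  have e1 := xs_rh (α := α) hx' i
  have hxp : 0 < KB.xs (wp w κ α) (kt κ) i := by
    rw [e1]
    exact mul_pos (by linarith) (hx i)
  have e2 : KB.xs (wp w κ α) (kt κ) i ≤ xsO w κ i + unO w κ := by
    rw [xs_wp hx']
    have : α i ≤ 1 := by
      rw [← h1s]
      exact single_le_sum (f := α) (fun l _ => hα l) (mem_univ i)
    nlinarith
  have e3 : xsO w κ i ≤ KB.xs (wp w κ α) (kt κ) i := by
    rw [e1]
    nlinarith [hx i]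
  have hgx2 : 2 * unO w κ < xsO w κ i := by linarith
  have hQ1' : 7 * Qb * (xsO w κ i * rh w κ α i) ≤ 36 * SC * (xsO w κ i - 2 * unO w κ) := by
    refine le_trans (mul_le_mul_of_nonneg_right (by linarith) ?_) hQ1
    exact mul_nonneg (hx i).le (by linarith)
  have h2 := vertex ho hx hα h1s hd h0 h1 hg hgx2 hv hSC hQ0 hQ1' hlink
  have h3 := three_mi ho.free hW.nn (k := kt κ) i
  have h4 := last_le hg.le e2 (by linarith) hxp
  have h5 := df_nn (k := kt κ) ho.free hW i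
  set X := KB.xs (wp w κ α) (kt κ) i with hX
  set M := KB.mi E (wp w κ α) (kt κ) i with hM
  set g := unO w κ with hgd
  have h6 : (CPi + 12 * SC / X - CPo) * (3 * M) ≤
      (CPi + 12 * SC / X - CPo) * KB.mu E (wp w κ α) (kt κ) :=
    mul_le_mul_of_nonneg_left h3 (by linarith)
  have h7 : (36 * SC - 7 * Qb) * (df E (wp w κ α) (kt κ) i / X) ≤
      (36 * SC - 7 * QL) * (df E (wp w κ α) (kt κ) i / X) :=
    mul_le_mul_of_nonneg_right (by linarith) (div_nonneg h5 hxp.le)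
  have h8 : 4 * Qb * g * X ^ 2 / (xsO w κ i - 2 * g) ≤ 4 * QH * g * (X + 18 / 5 * g) := by
    have a1 : 4 * Qb * g * X ^ 2 / (xsO w κ i - 2 * g) =
        4 * Qb * g * (X ^ 2 / (xsO w κ i - 2 * g)) := by ring
    rw [a1]
    have a2 : 4 * Qb * g * (X ^ 2 / (xsO w κ i - 2 * g)) ≤ 4 * Qb * g * (X + 18 / 5 * g) :=
      mul_le_mul_of_nonneg_left h4 (by positivity)
    have a3 : 4 * Qb * g * (X + 18 / 5 * g) ≤ 4 * QH * g * (X + 18 / 5 * g) := by
      refine mul_le_mul_of_nonneg_right ?_ (by positivity)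
      exact mul_le_mul_of_nonneg_right (by linarith) hg.le
    exact a2.trans a3
  have h9 : 36 * SC * (2 * EK E w (up w κ α) / g) = 72 * SC * (EK E w (up w κ α) / g) := by ring
  have h10 : 36 * SC * (M / X) = 12 * SC / X * (3 * M) := by ring
  rw [h9, h10] at h2
  linarith

end

end KW
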