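import Pool.Agent.Helper85.KV.V2

set_option autoImplicit false

/-!
Table form of the general link inequality (N*): membership families of five roots.
A pair `y z` has the membership set `S` of the roots `k` with `E (ρ k) y z`; the new link contains
`y z` iff `S` lies in a family that depends on the links of `y` and `z` on the roots.
-/

namespace KF

open Finset

/-- Membership set of a pair. -/
def s5 {V : Type} (E : V → V → V → Bool) (ρ : Fin 5 → V) (y z : V) : ℕ :=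
  Nat.ofBits (fun k : Fin 5 => E (ρ k) y z)

/-- Conditions on the families. -/
structure FamOk (F : ℕ → ℕ → ℕ → ℕ → Bool) : Prop where
  symm : ∀ r a b S, F r a b S = F r b a S
  two : ∀ r a b c S T, F r a b S = true → F r a c T = true → S &&& T ≠ 0
  three : ∀ r a b c S T U, F r a b S = true → F r a c T = true → F r b c U = true →
    S &&& T &&& U ≠ 0

theorem bit_of_ne {x : ℕ} (h : x ≠ 0) : ∃ i, x.testBit i = true := by
  by_contra hc
  push Not at hc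
  apply h
  refine Nat.eq_of_testBit_eq fun i => ?_
  rw [Nat.zero_testBit]
  exact Bool.eq_false_iff.mpr (hc i)

theorem s5_bit {V : Type} (E : V → V → V → Bool) (ρ : Fin 5 → V) (y z : V) {i : ℕ}
    (h : (s5 E ρ y z).testBit i = true) : ∃ hi : i < 5, E (ρ ⟨i, hi⟩) y z = true := by
  unfold s5 at h
  by_cases hi : i < 5
  · refine ⟨hi, ?_⟩
    rw [Nat.testBit_ofBits_lt _ _ hi] at h
    exact h
  · rw [Nat.testBit_ofBits_ge _ _ (not_lt.mp hi)] at h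
    exact absurd h Bool.false_ne_true

theorem adm_fam {V : Type} {E : V → V → V → Bool} (hE : K4m E) (ρ : Fin 5 → V) (κ : V → ℕ)
    {F : ℕ → ℕ → ℕ → ℕ → Bool} (hF : FamOk F) (r : ℕ) :
    Adm E (fun y z => F r (κ y) (κ z) (s5 E ρ y z)) := by
  have hs : ∀ a b, s5 E ρ a b = s5 E ρ b a := fun a b => by
    unfold s5
    congr 1
    funext k
    exact (adm_link hE (ρ k)).symm a b
  refine ⟨fun a b => ?_, fun a => ?_, fun a b c h1 h2 h3 => ?_, fun a b c h1 h2 h3 => ?_⟩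
  · rw [hs, hF.symm]
  · by_contra hc
    rw [Bool.not_eq_false] at hc
    obtain ⟨i, hi⟩ := bit_of_ne (hF.two r _ _ _ _ _ hc hc)
    rw [Nat.and_self] at hi
    obtain ⟨hi5, h5⟩ := s5_bit E ρ a a hi
    rw [(adm_link hE _).irr] at h5
    exact Bool.false_ne_true h5
  · obtain ⟨i, hi⟩ := bit_of_ne (hF.three r _ _ _ _ _ _ h1 h2 h3)
    rw [Nat.testBit_and, Nat.testBit_and, Bool.and_eq_true, Bool.and_eq_true] at hi
    obtain ⟨hi5, h5⟩ := s5_bit E ρ a b hi.1.1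
    obtain ⟨_, h6⟩ := s5_bit E ρ a c hi.1.2
    obtain ⟨_, h7⟩ := s5_bit E ρ b c hi.2
    exact (adm_link hE _).tri a b c h5 h6 h7
  · obtain ⟨i, hi⟩ := bit_of_ne (hF.two r _ _ _ _ _ h1 h2)
    rw [Nat.testBit_and, Bool.and_eq_true] at hi
    obtain ⟨hi5, h5⟩ := s5_bit E ρ a b hi.1
    obtain ⟨_, h6⟩ := s5_bit E ρ a c hi.2
    exact (adm_link hE _).path a b c h5 h6 h3

/-- Integrand of (N*). -/
def gNS (μ : ℕ → ℝ) (F : ℕ → ℕ → ℕ → ℕ → Bool) (p : ℝ) (m : ℕ) : ℝ :=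
  μ (m % 2 ^ 10) * (p - b2r (F (m % 2 ^ 10) (m / 2 ^ 10 % 2 ^ 10) (m / 2 ^ 20 % 2 ^ 10)
    (m / 2 ^ 30 % 2 ^ 5)))

theorem gNS_split (μ : ℕ → ℝ) (F : ℕ → ℕ → ℕ → ℕ → Bool) (p q : ℝ) (m : ℕ) :
    gNS μ F q m = gNS μ F p m + (q - p) * μ (m % 2 ^ 10) := by
  unfold gNS; ring

theorem msk_s5 {V : Type} (E : V → V → V → Bool) (φ : Fin 7 → V) :
    msk E φ / 2 ^ 30 % 2 ^ 5 = s5 E ![φ 0, φ 1, φ 2, φ 3, φ 4] (φ 5) (φ 6) := by
  have h := ofBits_slice (fun b : Fin 35 => E (φ (T0 b)) (φ (T1 b)) (φ (T2 b))) 30 5 (by norm_num)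
  have h1 : msk E φ / 2 ^ 30 % 2 ^ 5 =
    (Nat.ofBits (fun b : Fin 35 => E (φ (T0 b)) (φ (T1 b)) (φ (T2 b))) /
    2 ^ 30) % 2 ^ 5 := rfl
  rw [h1, h]
  unfold s5
  congr 1
  funext i
  fin_cases i <;> rfl

section
variable {V : Type} [Fintype V]

theorem evNS {E : V → V → V → Bool} (hE : K4m E) {w : V → ℝ} (hw : Wt w)
    {μ : ℕ → ℝ} (hμ : ∀ r, 0 ≤ μ r) {F : ℕ → ℕ → ℕ → ℕ → Bool} (hF : FamOk F)
    {t : ℝ} (ht : 0 < t) (ht1 : t ≤ 1) :
    -((L - dens E w) / (3 * t) + 2 * t) * Ev 7 w (fun φ => μ (msk E φ % 2 ^ 10)) ≤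
      Ev 7 w (fun φ => gNS μ F L (msk E φ)) := by
  rw [← Ev_mul, Ev_append 5 2 w, Ev_append 5 2 w]
  refine Ev_mono 5 w hw.nn fun ρ => ?_
  have h := ineqN hE hw (adm_fam hE ρ (fun x => l5 E ρ x) hF (m5 E ρ)) ht ht1
  have h0 : -((L - dens E w) / (3 * t) + 2 * t) ≤ L - Ev 2 w (fun ψ =>
      b2r (F (m5 E ρ) (l5 E ρ (ψ 0)) (l5 E ρ (ψ 1)) (s5 E ρ (ψ 0) (ψ 1)))) := by linarith
  have h2 := mul_le_mul_of_nonneg_left h0 (hμ (m5 E ρ))
  have e1 : Ev 2 w (fun ψ => -((L - dens E w) / (3 * t) + 2 * t) *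
      μ (msk E (Fin.append ρ ψ : Fin 7 → V) % 2 ^ 10)) =
      μ (m5 E ρ) * -((L - dens E w) / (3 * t) + 2 * t) := by
    rw [← Ev_const 2 w hw.one (μ (m5 E ρ) * -((L - dens E w) / (3 * t) + 2 * t))]
    refine Ev_congr 2 w fun ψ => ?_
    rw [msk_m5, app5]
    ring
  have e2 : Ev 2 w (fun ψ => gNS μ F L (msk E (Fin.append ρ ψ : Fin 7 → V))) =
      μ (m5 E ρ) * (L - Ev 2 w (fun ψ =>
      b2r (F (m5 E ρ) (l5 E ρ (ψ 0)) (l5 E ρ (ψ 1)) (s5 E ρ (ψ 0) (ψ 1))))) := by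
    have h4 : ∀ ψ : Fin 2 → V, gNS μ F L (msk E (Fin.append ρ ψ : Fin 7 → V)) =
        μ (m5 E ρ) * (L - b2r (F (m5 E ρ) (l5 E ρ (ψ 0)) (l5 E ρ (ψ 1))
          (s5 E ρ (ψ 0) (ψ 1)))) := by
      intro ψ
      unfold gNS
      rw [msk_s5, msk_m5, msk_l5a, msk_l5b, app5,
        show (Fin.append ρ ψ : Fin 7 → V) 5 = ψ 0 from rfl,
        show (Fin.append ρ ψ : Fin 7 → V) 6 = ψ 1 from rfl]
    rw [Ev_congr 2 w h4, Ev_mul, Ev_sub, Ev_const 2 w hw.one]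
  rw [e1, e2]
  exact h2

/-- (N*) in table form. -/
theorem kcNS {E : V → V → V → Bool} (hE : K4m E) {w : V → ℝ} (hw : Wt w)
    {μ : ℕ → ℝ} (hμ : ∀ r, 0 ≤ μ r) {F : ℕ → ℕ → ℕ → ℕ → Bool} (hF : FamOk F)
    {t : ℝ} (ht : 0 < t) (ht1 : t ≤ 1) :
    -((L - dens E w) / (3 * t) + 2 * t) * Ev 7 w (fun φ => μ (KC.msk E φ % 2 ^ 10)) ≤
      Ev 7 w (fun φ => gNS μ F L (KC.msk E φ)) := by
  simpa only [msk_eq] using evNS hE hw hμ hF ht ht1

end

/-! Families given by classes and generators. -/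

/-- `κ r l` is the class of the link `l`, `G r c d` the generators of the family of a pair of
classes. -/
def FG (κ : ℕ → ℕ → ℕ) (G : ℕ → ℕ → ℕ → List ℕ) (r a b S : ℕ) : Bool :=
  (G r (κ r a) (κ r b)).any (fun g => g &&& S == g)

theorem fg_ok {κ : ℕ → ℕ → ℕ} {G : ℕ → ℕ → ℕ → List ℕ}
    (hs : ∀ r c d, G r c d = G r d c)
    (h2 : ∀ r c d e, ∀ g ∈ G r c d, ∀ g' ∈ G r c e, g &&& g' ≠ 0)
    (h3 : ∀ r c d e, ∀ g ∈ G r c d, ∀ g' ∈ G r c e, ∀ g'' ∈ G r d e, g &&& g' &&& g'' ≠ 0) :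
    FamOk (FG κ G) := by
  have key : ∀ {g S : ℕ}, g &&& S = g → ∀ {i : ℕ}, g.testBit i = true → S.testBit i = true := by
    intro g S h i hi
    rw [← h, Nat.testBit_and, Bool.and_eq_true] at hi
    exact hi.2
  refine ⟨fun r a b S => by unfold FG; rw [hs], fun r a b c S T hS hT h0 => ?_,
    fun r a b c S T U hS hT hU h0 => ?_⟩
  · unfold FG at hS hT
    rw [List.any_eq_true] at hS hT
    obtain ⟨g, hg, hgS⟩ := hS
    obtain ⟨g', hg', hgT⟩ := hT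
    rw [beq_iff_eq] at hgS hgT
    obtain ⟨i, hi⟩ := bit_of_ne (h2 r _ _ _ g hg g' hg')
    rw [Nat.testBit_and, Bool.and_eq_true] at hi
    have := Nat.testBit_and S T i
    rw [h0, key hgS hi.1, key hgT hi.2] at this
    simp at this
  · unfold FG at hS hT hU
    rw [List.any_eq_true] at hS hT hU
    obtain ⟨g, hg, hgS⟩ := hS
    obtain ⟨g', hg', hgT⟩ := hT
    obtain ⟨g'', hg'', hgU⟩ := hU
    rw [beq_iff_eq] at hgS hgT hgU
    obtain ⟨i, hi⟩ := bit_of_ne (h3 r _ _ _ g hg g' hg' g'' hg'')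
    rw [Nat.testBit_and, Nat.testBit_and, Bool.and_eq_true, Bool.and_eq_true] at hi
    have := Nat.testBit_and (S &&& T) U i
    rw [h0, Nat.testBit_and, key hgS hi.1.1, key hgT hi.1.2, key hgU hi.2] at this
    simp at this

end KF
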