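import Pool.Agent.Helper25.K4.Avg
import Pool.Agent.Helper20.KT.T8
import Pool.Agent.Helper85.KB.B1

/-!
# The density identity of a partial partition
-/

set_option autoImplicit false

open Finset

namespace KT

open KF KC

section
variable {V : Type}

/-- The unassigned part. -/
def zO (κ : V → Option (Fin 6)) : V → ℝ := fun v => b2r (κ v).isNone

/-- Indicator of a class. -/
def icO (κ : V → Option (Fin 6)) (i : Fin 6) : V → ℝ := fun v => b2r (decide (κ v = some i))

/-- Density of the blow-up with given sizes. -/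
noncomputable def BB (x : Fin 6 → ℝ) : ℝ := ∑ i, ∑ j, ∑ k, x i * x j * x k * b2r (D6 i j k)

variable {κ : V → Option (Fin 6)}

theorem zO_nn (v : V) : 0 ≤ zO κ v := b2r_nonneg _

theorem zO_le (v : V) : zO κ v ≤ 1 := b2r_le_one _

theorem icO_nn (i : Fin 6) (v : V) : 0 ≤ icO κ i v := b2r_nonneg _

theorem icO_le (i : Fin 6) (v : V) : icO κ i v ≤ 1 := b2r_le_one _

theorem sum_icO (v : V) (f : Fin 6 → ℝ) : ∑ i, icO κ i v * f i = (κ v).elim 0 f := by
  unfold icO
  cases h : κ v with
  | none => simp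
  | some j =>
    rw [Finset.sum_eq_single j]
    · simp
    · intro i _ hi
      rw [decide_eq_false (by simpa using hi.symm)]
      simp
    · simp

theorem one_sub_zO (v : V) : 1 - zO κ v = ∑ i, icO κ i v := by
  have h := sum_icO (κ := κ) v (fun _ => 1)
  simp only [mul_one] at h
  rw [h]
  unfold zO
  cases κ v <;> simp

/-- Blocks as a sum over the classes. -/
theorem sum_dO (x y z : V) :
    ∑ i, icO κ i x * ∑ j, icO κ j y * ∑ k, icO κ k z * b2r (D6 i j k) =
      b2r (dO (κ x) (κ y) (κ z)) := by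
  simp only [sum_icO]
  cases κ x <;> cases κ y <;> cases κ z <;> simp [dO]

/-- Pointwise form of the identity. -/
theorem kindsO (x y z : V) : (1 - zO κ x) * (1 - zO κ y) * (1 - zO κ z) =
    b2r (dO (κ x) (κ y) (κ z)) + b2r (bO (κ x) (κ y) (κ z)) +
      ∑ i, icO κ i x * (icO κ i y * icO κ i z) := by
  have h1 : ∑ i, icO κ i x * (icO κ i y * icO κ i z) =
      (κ x).elim 0 (fun i => icO κ i y * icO κ i z) := sum_icO x _
  rw [h1]
  unfold zO icO
  cases hx : κ x with
  | none => simp [dO, bO]
  | some i =>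
    cases hy : κ y with
    | none => simp [dO, bO]
    | some j =>
      cases hz : κ z with
      | none => simp [dO, bO]
      | some k =>
        have h := KB.kinds i j k
        have e1 : b2r (bO (some i) (some j) (some k)) = b2r (KB.bad i j k) := rfl
        have e2 : b2r (dO (some i) (some j) (some k)) = b2r (D6 i j k) := rfl
        have e3 : b2r (decide (some j = some i)) * b2r (decide (some k = some i)) =
            b2r (KB.inn i j k) := by
          unfold KB.inn
          by_cases h1 : i = j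
          · subst h1
            by_cases h2 : i = k
            · subst h2
              simp
            · have : ¬ (some k = some i) := fun h => h2 (Option.some.inj h).symm
              simp [h2, this]
          · have : ¬ (some j = some i) := fun h => h1 (Option.some.inj h).symm
            simp [h1, this]
        rw [e1, e2]
        simp only [Option.isNone_some, b2r_false, sub_zero, mul_one, Option.elim_some]
        rw [e3]
        linarith

end

section
variable {V : Type} [Fintype V] {κ : V → Option (Fin 6)} {E : V → V → V → Bool} {w : V → ℝ}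

theorem unO_eq : unO w κ = ∑ v, w v * zO κ v := rfl

theorem xsO_eq (i : Fin 6) : xsO w κ i = ∑ v, w v * icO κ i v := rfl

theorem sum_xsO (hw : Wt w) : ∑ i, xsO w κ i = 1 - unO w κ := by
  have h1 : ∑ i, xsO w κ i = ∑ v, w v * (1 - zO κ v) := by
    simp only [xsO_eq]
    rw [Finset.sum_comm]
    refine Finset.sum_congr rfl fun v _ => ?_
    rw [← Finset.mul_sum, ← one_sub_zO]
  rw [h1, unO_eq]
  simp only [mul_sub, mul_one, Finset.sum_sub_distrib, hw.one]

theorem xsO_nn (hw : ∀ v, 0 ≤ w v) (i : Fin 6) : 0 ≤ xsO w κ i :=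
  Finset.sum_nonneg fun v _ => mul_nonneg (hw v) (icO_nn i v)

theorem unO_nn (hw : ∀ v, 0 ≤ w v) : 0 ≤ unO w κ :=
  Finset.sum_nonneg fun v _ => mul_nonneg (hw v) (zO_nn v)

theorem muO_nn (hw : ∀ v, 0 ≤ w v) : 0 ≤ muO E w κ :=
  Finset.sum_nonneg fun x _ => Finset.sum_nonneg fun y _ => Finset.sum_nonneg fun z _ =>
    mul_nonneg (mul_nonneg (mul_nonneg (hw x) (hw y)) (hw z))
      (mul_nonneg (b2r_nonneg _) (by linarith [b2r_le_one (E x y z)]))

theorem beO_nn (hw : ∀ v, 0 ≤ w v) : 0 ≤ beO E w κ :=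
  Finset.sum_nonneg fun x _ => Finset.sum_nonneg fun y _ => Finset.sum_nonneg fun z _ =>
    mul_nonneg (mul_nonneg (mul_nonneg (hw x) (hw y)) (hw z))
      (mul_nonneg (b2r_nonneg _) (b2r_nonneg _))

/-- The blow-up density as a sum over the vertices. -/
theorem BB_xsO : BB (xsO w κ) =
    ∑ x, ∑ y, ∑ z, w x * w y * w z * b2r (dO (κ x) (κ y) (κ z)) := by
  have h1 : ∀ x y z : V, w x * w y * w z * b2r (dO (κ x) (κ y) (κ z)) =
      ∑ i, ∑ j, ∑ k, (w x * icO κ i x) * (w y * icO κ j y) * (w z * icO κ k z) *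
        b2r (D6 i j k) := by
    intro x y z
    rw [← sum_dO]
    simp only [Finset.mul_sum]
    exact Finset.sum_congr rfl fun i _ => Finset.sum_congr rfl fun j _ =>
      Finset.sum_congr rfl fun k _ => by ring
  simp only [h1]
  have h2 : ∀ i j k : Fin 6, xsO w κ i * xsO w κ j * xsO w κ k * b2r (D6 i j k) =
      ∑ x, ∑ y, ∑ z, (w x * icO κ i x) * (w y * icO κ j y) * (w z * icO κ k z) *
        b2r (D6 i j k) := by
    intro i j k
    rw [xsO_eq, xsO_eq, xsO_eq, Finset.sum_mul_sum, Finset.sum_mul, Finset.sum_mul]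
    refine Finset.sum_congr rfl fun x _ => ?_
    rw [Finset.sum_mul_sum, Finset.sum_mul]
    refine Finset.sum_congr rfl fun y _ => ?_
    rw [Finset.sum_mul]
  unfold BB
  simp only [h2]
  -- swap the sums
  calc ∑ i, ∑ j, ∑ k, ∑ x, ∑ y, ∑ z, (w x * icO κ i x) * (w y * icO κ j y) *
        (w z * icO κ k z) * b2r (D6 i j k)
      = ∑ i, ∑ j, ∑ x, ∑ k, ∑ y, ∑ z, (w x * icO κ i x) * (w y * icO κ j y) *
        (w z * icO κ k z) * b2r (D6 i j k) := by
        refine Finset.sum_congr rfl fun i _ => Finset.sum_congr rfl fun j _ => ?_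
        exact Finset.sum_comm
    _ = ∑ i, ∑ x, ∑ j, ∑ k, ∑ y, ∑ z, (w x * icO κ i x) * (w y * icO κ j y) *
        (w z * icO κ k z) * b2r (D6 i j k) := by
        refine Finset.sum_congr rfl fun i _ => ?_
        exact Finset.sum_comm
    _ = ∑ x, ∑ i, ∑ j, ∑ k, ∑ y, ∑ z, (w x * icO κ i x) * (w y * icO κ j y) *
        (w z * icO κ k z) * b2r (D6 i j k) := Finset.sum_comm
    _ = ∑ x, ∑ y, ∑ i, ∑ j, ∑ k, ∑ z, (w x * icO κ i x) * (w y * icO κ j y) *
        (w z * icO κ k z) * b2r (D6 i j k) := by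
        refine Finset.sum_congr rfl fun x _ => ?_
        have e1 : ∀ i j : Fin 6, ∑ k, ∑ y, ∑ z, (w x * icO κ i x) * (w y * icO κ j y) *
            (w z * icO κ k z) * b2r (D6 i j k) = ∑ y, ∑ k, ∑ z, (w x * icO κ i x) *
            (w y * icO κ j y) * (w z * icO κ k z) * b2r (D6 i j k) := fun i j => Finset.sum_comm
        simp only [e1]
        have e2 : ∀ i : Fin 6, ∑ j, ∑ y, ∑ k, ∑ z, (w x * icO κ i x) * (w y * icO κ j y) *
            (w z * icO κ k z) * b2r (D6 i j k) = ∑ y, ∑ j, ∑ k, ∑ z, (w x * icO κ i x) *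
            (w y * icO κ j y) * (w z * icO κ k z) * b2r (D6 i j k) := fun i => Finset.sum_comm
        simp only [e2]
        exact Finset.sum_comm
    _ = ∑ x, ∑ y, ∑ z, ∑ i, ∑ j, ∑ k, (w x * icO κ i x) * (w y * icO κ j y) *
        (w z * icO κ k z) * b2r (D6 i j k) := by
        refine Finset.sum_congr rfl fun x _ => Finset.sum_congr rfl fun y _ => ?_
        have e1 : ∀ i j : Fin 6, ∑ k, ∑ z, (w x * icO κ i x) * (w y * icO κ j y) *
            (w z * icO κ k z) * b2r (D6 i j k) = ∑ z, ∑ k, (w x * icO κ i x) *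
            (w y * icO κ j y) * (w z * icO κ k z) * b2r (D6 i j k) := fun i j => Finset.sum_comm
        simp only [e1]
        have e2 : ∀ i : Fin 6, ∑ j, ∑ z, ∑ k, (w x * icO κ i x) * (w y * icO κ j y) *
            (w z * icO κ k z) * b2r (D6 i j k) = ∑ z, ∑ j, ∑ k, (w x * icO κ i x) *
            (w y * icO κ j y) * (w z * icO κ k z) * b2r (D6 i j k) := fun i => Finset.sum_comm
        simp only [e2]
        exact Finset.sum_comm

/-- The density outside of the unassigned part. -/
theorem glob_eqO : dens E (wo w (zO κ)) = BB (xsO w κ) - muO E w κ + beO E w κ +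
    ∑ i, dens E (fun v => w v * icO κ i v) := by
  have h2 : ∑ i, dens E (fun v => w v * icO κ i v) =
      ∑ x, ∑ y, ∑ z, w x * w y * w z *
        ((∑ i, icO κ i x * (icO κ i y * icO κ i z)) * b2r (E x y z)) := by
    unfold KF.dens
    rw [Finset.sum_comm]
    refine Finset.sum_congr rfl fun x _ => ?_
    rw [Finset.sum_comm]
    refine Finset.sum_congr rfl fun y _ => ?_
    rw [Finset.sum_comm]
    refine Finset.sum_congr rfl fun z _ => ?_
    rw [Finset.sum_mul, Finset.mul_sum]
    exact Finset.sum_congr rfl fun i _ => by ring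
  rw [BB_xsO, h2]
  unfold muO beO KF.dens
  rw [← Finset.sum_sub_distrib, ← Finset.sum_add_distrib, ← Finset.sum_add_distrib]
  refine Finset.sum_congr rfl fun x _ => ?_
  rw [← Finset.sum_sub_distrib, ← Finset.sum_add_distrib, ← Finset.sum_add_distrib]
  refine Finset.sum_congr rfl fun y _ => ?_
  rw [← Finset.sum_sub_distrib, ← Finset.sum_add_distrib, ← Finset.sum_add_distrib]
  refine Finset.sum_congr rfl fun z _ => ?_
  have h := kindsO (κ := κ) x y z
  have e1 : wo w (zO κ) x * wo w (zO κ) y * wo w (zO κ) z * b2r (E x y z) =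
      w x * w y * w z * (((1 - zO κ x) * (1 - zO κ y) * (1 - zO κ z)) * b2r (E x y z)) := by
    unfold wo
    ring
  rw [e1, h]
  ring

theorem inner_nn (hw : ∀ v, 0 ≤ w v) (i : Fin 6) : 0 ≤ dens E (fun v => w v * icO κ i v) :=
  dens_nonneg E fun v => mul_nonneg (hw v) (icO_nn i v)

theorem inner_le (hE : K4m E) (hw : ∀ v, 0 ≤ w v) (i : Fin 6) :
    dens E (fun v => w v * icO κ i v) ≤ L * xsO w κ i ^ 3 :=
  dens_le_L_hom hE (u := fun v => w v * icO κ i v) fun v => mul_nonneg (hw v) (icO_nn i v)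

/-- The main inequality of a partial partition. -/
theorem glob_le (ho : Opt E w) : dens E w * (1 - 3 * unO w κ) ≤
    BB (xsO w κ) - muO E w κ + beO E w κ + ∑ i, dens E (fun v => w v * icO κ i v) := by
  rw [← glob_eqO]
  exact le_dens_out ho (z := zO κ) zO_nn zO_le

end

end KT
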