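import Pool.Agent.Helper64.K4.PE

/-!
# The optimal redistribution of the unassigned mass over the classes

`w` optimal, `u` with sum zero, `w' = w - u`: exact values of the density and of the degrees in
the environment `w'`.
-/

set_option autoImplicit false

open Finset

namespace KW

open KF KC KT

section
variable {V : Type} [Fintype V] {E : V → V → V → Bool} {w : V → ℝ}

/-- The energy of a perturbation. -/
noncomputable def EK (E : V → V → V → Bool) (w u : V → ℝ) : ℝ := -tri E u u w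

theorem EK_nn (ho : Opt E w) {u : V → ℝ} (hu : ∑ v, u v = 0) : 0 ≤ EK E w u := by
  have h := second_var ho u
  rw [hu] at h
  unfold EK
  linarith

theorem tri_any (ho : Opt E w) (q u : V → ℝ) :
    tri E q (w + (-1 : ℝ) • u) (w + (-1 : ℝ) • u) =
      dens E w * ∑ v, q v - 2 * tri E q u w + tri E q u u := by
  have hE := ho.free
  rw [tri_add2 hE, tri_add3 hE, tri_add3 hE, tri_smul2 hE, tri_smul2 hE, tri_smul3 hE,
    tri_smul3 hE, tri_uww ho, tri_swap23 hE q w u]
  ring

theorem tri_w' (ho : Opt E w) {u : V → ℝ} (hu : ∑ v, u v = 0) :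
    tri E w (w + (-1 : ℝ) • u) (w + (-1 : ℝ) • u) = dens E w - EK E w u := by
  have hE := ho.free
  rw [tri_any ho w u, ho.wt.one, tri_swap12 hE w u w, tri_uww ho, hu, tri_swap13 hE w u u]
  unfold EK
  rw [mul_one, mul_zero]
  ring

theorem dens_w' (ho : Opt E w) {u : V → ℝ} (hu : ∑ v, u v = 0) :
    dens E (w + (-1 : ℝ) • u) = dens E w - 3 * EK E w u - tri E u u u := by
  have hE := ho.free
  have h1 : dens E (w + (-1 : ℝ) • u) = tri E w (w + (-1 : ℝ) • u) (w + (-1 : ℝ) • u) -
      tri E u (w + (-1 : ℝ) • u) (w + (-1 : ℝ) • u) := by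
    rw [dens_eq_tri]
    conv_lhs => rw [tri_add1, tri_smul1]
    ring
  rw [h1, tri_w' ho hu, tri_any ho u u, hu]
  unfold EK
  ring

/-- Degrees in the environment `w - u`. -/
theorem deg_w' [DecidableEq V] (ho : Opt E w) (u : V → ℝ) (v : V) :
    deg E (w + (-1 : ℝ) • u) v = dens E w - 2 * tri E (pt v) u w + tri E (pt v) u u := by
  rw [← tri_pt_deg, tri_any ho, sum_pt, mul_one]

theorem cs_real {A B C : ℝ} (h : ∀ s : ℝ, 0 ≤ A * s ^ 2 + 2 * B * s + C) : B ^ 2 ≤ A * C := by
  have h1 : discrim A (2 * B) C ≤ 0 := by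
    refine discrim_le_zero fun s => ?_
    have := h s
    nlinarith
  unfold discrim at h1
  nlinarith

/-- Cauchy-Schwarz for the codegree form. -/
theorem cs (ho : Opt E w) {q u : V → ℝ} (hq : ∑ v, q v = 0) (hu : ∑ v, u v = 0) :
    (tri E q u w) ^ 2 ≤ EK E w q * EK E w u := by
  have hE := ho.free
  have h1 : ∀ s : ℝ, 0 ≤ EK E w q * s ^ 2 + 2 * (-tri E q u w) * s + EK E w u := by
    intro s
    have h2 : ∑ v, (s • q + u) v = 0 := by
      simp only [Pi.add_apply, Pi.smul_apply, smul_eq_mul, sum_add_distrib, ← mul_sum, hq, hu]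
      ring
    have h3 := EK_nn ho h2
    have h4 : EK E w (s • q + u) = EK E w q * s ^ 2 + 2 * (-tri E q u w) * s + EK E w u := by
      unfold EK
      simp only [tri_add1, tri_add2 hE, tri_smul1, tri_smul2 hE]
      rw [tri_swap12 hE u q w]
      ring
    rw [h4] at h3
    exact h3
  have := cs_real h1
  nlinarith

/-- The codegree with a perturbation is small for every vertex. -/
theorem cod_small [DecidableEq V] (ho : Opt E w) {u : V → ℝ} (hu : ∑ v, u v = 0) (v : V) :
    (tri E (pt v) u w) ^ 2 ≤ dens E w * EK E w u := by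
  have hE := ho.free
  have hq : ∑ x, (pt v + (-1 : ℝ) • w) x = 0 := by
    simp only [Pi.add_apply, Pi.smul_apply, smul_eq_mul, sum_add_distrib, ← mul_sum, sum_pt,
      ho.wt.one]
    ring
  have h1 := cs ho hq hu
  have h2 : tri E (pt v + (-1 : ℝ) • w) u w = tri E (pt v) u w := by
    rw [tri_add1, tri_smul1, tri_swap12 hE w u w, tri_uww ho, hu]
    ring
  have h3 : EK E w (pt v + (-1 : ℝ) • w) = dens E w := by
    unfold EK
    simp only [tri_add1, tri_add2 hE, tri_smul1, tri_smul2 hE]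
    rw [tri_pt_pt hE, tri_swap12 hE w (pt v) w, tri_pt_deg, ho.reg, ← dens_eq_tri]
    ring
  rw [h2, h3] at h1
  exact h1

/-- First order condition on an interval. -/
theorem first_order {a b c : ℝ} (h : ∀ t : ℝ, 0 < t → t ≤ 1 → a * t + b * t ^ 2 + c * t ^ 3 ≤ 0) :
    a ≤ 0 := by
  by_contra hcon
  push Not at hcon
  set M := |b| + |c| + 1 with hM
  have hM0 : 0 < M := by positivity
  set t := min 1 (a / (2 * M)) with ht
  have ht0 : 0 < t := lt_min one_pos (by positivity)
  have ht1 : t ≤ 1 := min_le_left _ _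
  have ht2 : t ≤ a / (2 * M) := min_le_right _ _
  have h1 := h t ht0 ht1
  have h2 : t * (2 * M) ≤ a := by
    rw [le_div_iff₀ (by positivity)] at ht2
    exact ht2
  have h3 : a + b * t + c * t ^ 2 ≤ 0 := by
    have : t * (a + b * t + c * t ^ 2) ≤ 0 := by nlinarith
    by_contra h4
    push Not at h4
    have := mul_pos ht0 h4
    linarith
  have h4 : -|b| * t ≤ b * t := mul_le_mul_of_nonneg_right (neg_abs_le b) ht0.le
  have h5 : -|c| * t ≤ c * t ^ 2 := by
    have e1 : -|c| * t ^ 2 ≤ c * t ^ 2 := mul_le_mul_of_nonneg_right (neg_abs_le c) (sq_nonneg t)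
    have e2 : |c| * t ^ 2 ≤ |c| * t := mul_le_mul_of_nonneg_left (by nlinarith) (abs_nonneg c)
    linarith
  nlinarith

end

section
variable {V : Type} [Fintype V]

/-- Weights rescaled on the classes, zero on the unassigned vertices. -/
noncomputable def sc (w : V → ℝ) (κ : V → Option (Fin 6)) (ρ : Fin 6 → ℝ) : V → ℝ :=
  fun v => w v * (κ v).elim 0 ρ

variable {E : V → V → V → Bool} {w : V → ℝ} {κ : V → Option (Fin 6)}

theorem sc_sum (ρ : Fin 6 → ℝ) : ∑ v, sc w κ ρ v = ∑ i, xsO w κ i * ρ i := by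
  unfold sc
  have h1 : ∀ v, w v * (κ v).elim 0 ρ = ∑ i, w v * icO κ i v * ρ i := by
    intro v
    rw [← sum_icO, mul_sum]
    exact sum_congr rfl fun i _ => by ring
  simp only [h1]
  rw [sum_comm]
  refine sum_congr rfl fun i _ => ?_
  rw [xsO_eq, sum_mul]

theorem sc_nn (hw : ∀ v, 0 ≤ w v) {ρ : Fin 6 → ℝ} (hρ : ∀ i, 0 ≤ ρ i) (v : V) :
    0 ≤ sc w κ ρ v := by
  unfold sc
  refine mul_nonneg (hw v) ?_
  cases κ v with
  | none => exact le_rfl
  | some i => exact hρ i

theorem sc_add (ρ σ : Fin 6 → ℝ) : sc w κ (ρ + σ) = sc w κ ρ + sc w κ σ := by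
  funext v
  unfold sc
  simp only [Pi.add_apply]
  cases κ v with
  | none => simp
  | some i => simp [mul_add]

theorem sc_smul (c : ℝ) (ρ : Fin 6 → ℝ) : sc w κ (c • ρ) = c • sc w κ ρ := by
  funext v
  unfold sc
  simp only [Pi.smul_apply, smul_eq_mul]
  cases κ v with
  | none => simp
  | some i =>
    simp only [Option.elim_some, Pi.smul_apply, smul_eq_mul]
    ring

theorem sc_one : sc w κ (fun _ => 1) = wo w (zO κ) := by
  funext v
  unfold sc wo zO
  cases κ v with
  | none => simp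
  | some i => simp

/-- Probability weights: `α` on the classes. -/
noncomputable def al (w : V → ℝ) (κ : V → Option (Fin 6)) (α : Fin 6 → ℝ) : V → ℝ :=
  sc w κ (fun i => α i / xsO w κ i)

theorem al_sum (hx : ∀ i, xsO w κ i ≠ 0) (α : Fin 6 → ℝ) :
    ∑ v, al w κ α v = ∑ i, α i := by
  unfold al
  rw [sc_sum]
  exact sum_congr rfl fun i _ => by rw [mul_div_cancel₀ _ (hx i)]

theorem al_nn (hw : ∀ v, 0 ≤ w v) {α : Fin 6 → ℝ} (hα : ∀ i, 0 ≤ α i) (v : V) :
    0 ≤ al w κ α v := sc_nn hw (fun i => div_nonneg (hα i) (xsO_nn hw i)) v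

theorem al_add (α β : Fin 6 → ℝ) : al w κ (α + β) = al w κ α + al w κ β := by
  unfold al
  rw [← sc_add]
  congr 1
  funext i
  simp only [Pi.add_apply]
  ring

theorem al_smul (c : ℝ) (α : Fin 6 → ℝ) : al w κ (c • α) = c • al w κ α := by
  unfold al
  rw [← sc_smul]
  congr 1
  funext i
  simp only [Pi.smul_apply, smul_eq_mul]
  ring

/-- The new environment. -/
noncomputable def wp (w : V → ℝ) (κ : V → Option (Fin 6)) (α : Fin 6 → ℝ) : V → ℝ :=
  wo w (zO κ) + (unO w κ) • al w κ α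

/-- The perturbation. -/
noncomputable def up (w : V → ℝ) (κ : V → Option (Fin 6)) (α : Fin 6 → ℝ) : V → ℝ :=
  wi w (zO κ) + (-unO w κ) • al w κ α

theorem wp_eq (α : Fin 6 → ℝ) : wp w κ α = w + (-1 : ℝ) • up w κ α := by
  have h := wi_add_wo w (zO κ)
  unfold wp up
  funext v
  have hv := congrFun h v
  simp only [Pi.add_apply] at hv
  simp only [Pi.add_apply, Pi.smul_apply, smul_eq_mul]
  linarith

theorem up_sum (hx : ∀ i, xsO w κ i ≠ 0) {α : Fin 6 → ℝ} (h1 : ∑ i, α i = 1) :
    ∑ v, up w κ α v = 0 := by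
  unfold up
  simp only [Pi.add_apply, Pi.smul_apply, smul_eq_mul, sum_add_distrib, ← mul_sum]
  rw [al_sum hx, h1, unO_eq]
  unfold wi
  ring

theorem wp_sum (hw : Wt w) (hx : ∀ i, xsO w κ i ≠ 0) {α : Fin 6 → ℝ} (h1 : ∑ i, α i = 1) :
    ∑ v, wp w κ α v = 1 := by
  rw [wp_eq]
  simp only [Pi.add_apply, Pi.smul_apply, smul_eq_mul, sum_add_distrib, ← mul_sum]
  rw [up_sum hx h1, hw.one]
  ring

theorem wp_nn (hw : ∀ v, 0 ≤ w v) {α : Fin 6 → ℝ} (hα : ∀ i, 0 ≤ α i) (v : V) :
    0 ≤ wp w κ α v := by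
  unfold wp
  simp only [Pi.add_apply, Pi.smul_apply, smul_eq_mul]
  have h1 := mul_nonneg (unO_nn (κ := κ) hw) (al_nn (κ := κ) hw hα v)
  have h2 : 0 ≤ wo w (zO κ) v := mul_nonneg (hw v) (by linarith [zO_le (κ := κ) v])
  linarith

/-- The average degree over the added mass. -/
noncomputable def lst (E : V → V → V → Bool) (w : V → ℝ) (κ : V → Option (Fin 6))
    (α : Fin 6 → ℝ) : ℝ := tri E (al w κ α) (wp w κ α) (wp w κ α)

/-- The average degree of a class in the environment. -/
noncomputable def lam (E : V → V → V → Bool) (w : V → ℝ) (κ : V → Option (Fin 6))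
    (α : Fin 6 → ℝ) (i : Fin 6) : ℝ := tri E (al w κ (Pi.single i 1)) (wp w κ α) (wp w κ α)

/-- The degrees over the unassigned part: exact value. -/
theorem tri_Z (ho : Opt E w) (hx : ∀ i, xsO w κ i ≠ 0) {α : Fin 6 → ℝ} (h1 : ∑ i, α i = 1) :
    tri E (wi w (zO κ)) (wp w κ α) (wp w κ α) =
      unO w κ * lst E w κ α + 2 * EK E w (up w κ α) + tri E (up w κ α) (up w κ α) (up w κ α) := by
  have hu := up_sum (w := w) (κ := κ) hx h1
  have e1 := dens_w' ho hu
  have e2 := tri_w' ho hu
  rw [← wp_eq] at e1 e2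
  have e3 : tri E w (wp w κ α) (wp w κ α) = tri E (wi w (zO κ)) (wp w κ α) (wp w κ α) +
      tri E (wo w (zO κ)) (wp w κ α) (wp w κ α) := by
    rw [← tri_add1, wi_add_wo]
  have e4 : dens E (wp w κ α) = tri E (wo w (zO κ)) (wp w κ α) (wp w κ α) +
      unO w κ * lst E w κ α := by
    rw [dens_eq_tri]
    conv_lhs =>
      enter [2]
      unfold wp
    rw [tri_add1, tri_smul1]
    rfl
  linarith

/-- The best redistribution. -/
theorem exists_best (ho : Opt E w) : ∃ α : Fin 6 → ℝ,
    (∀ i, 0 ≤ α i) ∧ ∑ i, α i = 1 ∧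
      (∀ b, unO w κ * lam E w κ α b ≤ unO w κ * lst E w κ α) ∧
      ∀ β : Fin 6 → ℝ, (∀ i, 0 ≤ β i) → ∑ i, β i = 1 →
        dens E (wp w κ β) ≤ dens E (wp w κ α) := by
  have hE := ho.free
  have hc : IsCompact (stdSimplex ℝ (Fin 6)) := isCompact_stdSimplex ℝ (Fin 6)
  have hne : (stdSimplex ℝ (Fin 6)).Nonempty := ⟨Pi.single 0 1, single_mem_stdSimplex ℝ 0⟩
  have hcont : Continuous (fun α : Fin 6 → ℝ => dens E (wp w κ α)) := by
    have h1 : Continuous (fun α : Fin 6 → ℝ => wp w κ α) := by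
      unfold wp al sc
      refine continuous_pi fun v => ?_
      simp only [Pi.add_apply, Pi.smul_apply, smul_eq_mul]
      refine continuous_const.add (continuous_const.mul (continuous_const.mul ?_))
      cases κ v with
      | none => exact continuous_const
      | some i =>
        simp only [Option.elim_some]
        fun_prop
    have h2 : Continuous (fun u : V → ℝ => dens E u) := by
      unfold KF.dens
      fun_prop
    exact h2.comp h1
  obtain ⟨α, hα, hmax⟩ := hc.exists_isMaxOn hne hcont.continuousOn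
  refine ⟨α, hα.1, hα.2, fun b => ?_, fun β h0 h1 => ?_⟩
  swap
  · have := hmax (show β ∈ stdSimplex ℝ (Fin 6) from ⟨h0, h1⟩)
    simpa only [Set.mem_ofPred_eq] using this
  set g := unO w κ with hg
  -- direction towards the class b
  have key : ∀ t : ℝ, 0 < t → t ≤ 1 →
      3 * (g * (lam E w κ α b - lst E w κ α)) * t +
      3 * (g ^ 2 * tri E (al w κ (Pi.single b 1 + (-1 : ℝ) • α))
        (al w κ (Pi.single b 1 + (-1 : ℝ) • α)) (wp w κ α)) * t ^ 2 +
      g ^ 3 * tri E (al w κ (Pi.single b 1 + (-1 : ℝ) • α))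
        (al w κ (Pi.single b 1 + (-1 : ℝ) • α)) (al w κ (Pi.single b 1 + (-1 : ℝ) • α)) * t ^ 3
        ≤ 0 := by
    intro t ht0 ht1
    set β : Fin 6 → ℝ := Pi.single b 1 + (-1 : ℝ) • α with hβ
    have hmem : α + t • β ∈ stdSimplex ℝ (Fin 6) := by
      have h3 : α + t • β = (1 - t) • α + t • (Pi.single b 1 : Fin 6 → ℝ) := by
        rw [hβ]
        funext i
        simp only [Pi.add_apply, Pi.smul_apply, smul_eq_mul]
        ring
      rw [h3]
      exact convex_stdSimplex ℝ (Fin 6) hα (single_mem_stdSimplex ℝ b) (by linarith) ht0.le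
        (by ring)
    have h4 := hmax hmem
    simp only [Set.mem_ofPred_eq] at h4
    have h5 : wp w κ (α + t • β) = wp w κ α + (g * t) • al w κ β := by
      unfold wp
      rw [al_add, al_smul, ← hg]
      funext v
      simp only [Pi.add_apply, Pi.smul_apply, smul_eq_mul]
      ring
    have h6 : dens E (wp w κ (α + t • β)) = dens E (wp w κ α) +
        3 * (g * t) * tri E (al w κ β) (wp w κ α) (wp w κ α) +
        3 * (g * t) ^ 2 * tri E (al w κ β) (al w κ β) (wp w κ α) +
        (g * t) ^ 3 * tri E (al w κ β) (al w κ β) (al w κ β) := by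
      rw [h5, dens_eq_tri, dens_eq_tri]
      simp only [tri_add1, tri_add2 hE, tri_add3 hE, tri_smul1, tri_smul2 hE, tri_smul3 hE]
      rw [tri_swap13 hE (wp w κ α) (wp w κ α) (al w κ β),
        tri_swap12 hE (wp w κ α) (al w κ β) (wp w κ α),
        tri_swap23 hE (al w κ β) (wp w κ α) (al w κ β),
        tri_swap13 hE (wp w κ α) (al w κ β) (al w κ β)]
      ring
    have h7 : tri E (al w κ β) (wp w κ α) (wp w κ α) = lam E w κ α b - lst E w κ α := by
      unfold lam lst
      rw [hβ, al_add, al_smul, tri_add1, tri_smul1]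
      ring
    rw [h6, h7] at h4
    nlinarith
  have h8 := first_order key
  nlinarith

end

end KW
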