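import Pool.Agent.Helper64.K4.WP1
import Pool.Agent.Helper25.K4.Siz1

/-!
# Error terms of the environment `w'` and the choice of a vertex
-/

set_option autoImplicit false

open Finset hiding dens

namespace KW

open KF KT
open KC (wi wo wi_add_wo le_dens_out)

section
variable {V : Type} [Fintype V] {E : V → V → V → Bool} {w : V → ℝ}

/-- Mantel's theorem for a link. -/
theorem mantel [DecidableEq V] (hE : K4m E) (v : V) {q : V → ℝ} (hq : ∀ x, 0 ≤ q x) :
    tri E (pt v) q q ≤ (∑ x, q x) ^ 2 / 2 := by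
  rw [tri_pt]
  set S := ∑ x, q x with hS
  set D : V → ℝ := fun y => ∑ z, q z * b2r (E v y z) with hD
  have hS0 : 0 ≤ S := sum_nonneg fun x _ => hq x
  have e0 : ∑ y, ∑ z, q y * q z * b2r (E v y z) = ∑ y, q y * D y := by
    refine sum_congr rfl fun y _ => ?_
    rw [hD, mul_sum]
    exact sum_congr rfl fun z _ => by ring
  rw [e0]
  set e := ∑ y, q y * D y with he
  have hD0 : ∀ y, 0 ≤ D y := fun y => sum_nonneg fun z _ => mul_nonneg (hq z) (b2r_nonneg _)
  have he0 : 0 ≤ e := sum_nonneg fun y _ => mul_nonneg (hq y) (hD0 y)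
  -- degrees on edges
  have h1 : ∀ y z, b2r (E v y z) * (D y + D z) ≤ b2r (E v y z) * S := by
    intro y z
    by_cases h : E v y z = true
    · rw [h]
      simp only [b2r_true, one_mul]
      rw [hD, hS]
      beta_reduce
      rw [← sum_add_distrib]
      refine sum_le_sum fun x _ => ?_
      rw [← mul_add]
      have h2 : b2r (E v y x) + b2r (E v z x) ≤ 1 := by
        by_cases h3 : E v y x = true
        · by_cases h4 : E v z x = true
          · exact absurd h4 (fun h4 => hE.free v y z x h h3 h4)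
          · have h4' : E v z x = false := by simpa using h4
            rw [h3, h4']
            simp
        · have h3' : E v y x = false := by simpa using h3
          rw [h3']
          simp only [b2r_false, zero_add]
          exact b2r_le_one _
      calc q x * (b2r (E v y x) + b2r (E v z x)) ≤ q x * 1 :=
            mul_le_mul_of_nonneg_left h2 (hq x)
        _ = q x := mul_one _
    · have h' : E v y z = false := by simpa using h
      rw [h']
      simp
  have h2 : ∑ y, ∑ z, q y * q z * (b2r (E v y z) * (D y + D z)) ≤ S * e := by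
    have : S * e = ∑ y, ∑ z, q y * q z * (b2r (E v y z) * S) := by
      rw [he, mul_sum]
      refine sum_congr rfl fun y _ => ?_
      rw [hD]
      beta_reduce
      rw [mul_sum, mul_sum]
      exact sum_congr rfl fun z _ => by ring
    rw [this]
    exact sum_le_sum fun y _ => sum_le_sum fun z _ =>
      mul_le_mul_of_nonneg_left (h1 y z) (mul_nonneg (hq y) (hq z))
  have h3 : ∑ y, ∑ z, q y * q z * (b2r (E v y z) * (D y + D z)) = 2 * ∑ y, q y * D y ^ 2 := by
    have a1 : ∑ y, ∑ z, q y * q z * (b2r (E v y z) * (D y + D z)) =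
        (∑ y, ∑ z, q y * q z * (b2r (E v y z) * D y)) +
        ∑ y, ∑ z, q y * q z * (b2r (E v y z) * D z) := by
      rw [← sum_add_distrib]
      refine sum_congr rfl fun y _ => ?_
      rw [← sum_add_distrib]
      exact sum_congr rfl fun z _ => by ring
    have a2 : ∑ y, ∑ z, q y * q z * (b2r (E v y z) * D y) = ∑ y, q y * D y ^ 2 := by
      refine sum_congr rfl fun y _ => ?_
      have : q y * D y ^ 2 = (q y * D y) * ∑ z, q z * b2r (E v y z) := by
        rw [hD]
        ring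
      rw [this, mul_sum]
      exact sum_congr rfl fun z _ => by ring
    have a3 : ∑ y, ∑ z, q y * q z * (b2r (E v y z) * D z) = ∑ y, q y * D y ^ 2 := by
      rw [← a2, sum_comm]
      refine sum_congr rfl fun y _ => sum_congr rfl fun z _ => ?_
      rw [hE.s23 v z y]
      ring
    rw [a1, a2, a3]
    ring
  rw [h3] at h2
  set Q2 := ∑ y, q y * D y ^ 2 with hQ2
  -- Cauchy-Schwarz
  have h4 : 0 ≤ ∑ y, q y * (S * D y - e) ^ 2 :=
    sum_nonneg fun y _ => mul_nonneg (hq y) (sq_nonneg _)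
  have h5 : ∑ y, q y * (S * D y - e) ^ 2 = S ^ 2 * Q2 - 2 * S * e * e + e ^ 2 * S := by
    have : ∀ y, q y * (S * D y - e) ^ 2 = S ^ 2 * (q y * D y ^ 2) - 2 * S * e * (q y * D y) +
        e ^ 2 * q y := fun y => by ring
    simp only [this, sum_add_distrib, sum_sub_distrib, ← mul_sum]
    rw [← hQ2, ← he, ← hS]
  rw [h5] at h4
  rcases hS0.eq_or_lt with h | hSp
  · -- all weights vanish
    have hz := (sum_eq_zero_iff_of_nonneg (fun x _ => hq x)).1 (hS ▸ h.symm)
    have : e = 0 := by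
      rw [he]
      refine sum_eq_zero fun y hy => ?_
      rw [hz y hy]
      ring
    rw [this, ← h]
    norm_num
  · rcases he0.eq_or_lt with h6 | hep
    · rw [← h6]
      positivity
    · have h7 : e ^ 2 ≤ S * Q2 := by
        have : 0 ≤ S * (S * Q2 - e ^ 2) := by nlinarith
        by_contra hc
        push Not at hc
        have := mul_pos hSp (sub_pos.2 hc)
        nlinarith
      have h8 : 2 * e ^ 2 ≤ S * (S * e) := by nlinarith
      have h9 : e * (2 * e) ≤ e * (S ^ 2) := by nlinarith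
      have := le_of_mul_le_mul_left h9 hep
      linarith

theorem tri_eq_sum [DecidableEq V] (E : V → V → V → Bool) (a p q : V → ℝ) :
    tri E a p q = ∑ v, a v * tri E (pt v) p q := by
  unfold tri
  refine sum_congr rfl fun v _ => ?_
  have h := tri_pt E v p q
  unfold tri at h
  rw [h, mul_sum]
  refine sum_congr rfl fun y _ => ?_
  rw [mul_sum]
  exact sum_congr rfl fun z _ => by ring

theorem tri_mantel (hE : K4m E) {a q : V → ℝ} (ha : ∀ x, 0 ≤ a x) (hq : ∀ x, 0 ≤ q x) :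
    tri E a q q ≤ (∑ x, a x) * ((∑ x, q x) ^ 2 / 2) := by
  classical
  rw [tri_eq_sum, sum_mul]
  exact sum_le_sum fun v _ => mul_le_mul_of_nonneg_left (mantel hE v hq) (ha v)

/-- Cubic error term. -/
theorem tri_uuu (hE : K4m E) {q a : V → ℝ} (hq : ∀ x, 0 ≤ q x) (ha : ∀ x, 0 ≤ a x) {g : ℝ}
    (hg : 0 ≤ g) (h1 : ∑ x, q x = g) (h2 : ∑ x, a x = 1) :
    -(11 / 6 * g ^ 3) ≤ tri E (q + (-g) • a) (q + (-g) • a) (q + (-g) • a) ∧
      tri E (q + (-g) • a) (q + (-g) • a) (q + (-g) • a) ≤ 11 / 6 * g ^ 3 := by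
  have e1 : tri E (q + (-g) • a) (q + (-g) • a) (q + (-g) • a) =
      tri E q q q - 3 * g * tri E a q q + 3 * g ^ 2 * tri E q a a - g ^ 3 * tri E a a a := by
    simp only [tri_add1, tri_add2 hE, tri_add3 hE, tri_smul1, tri_smul2 hE, tri_smul3 hE]
    rw [tri_swap13 hE q q a, tri_swap12 hE q a q, tri_swap13 hE a a q, tri_swap12 hE a q a]
    ring
  have b1 := tri_mantel hE ha hq
  have b2 := tri_mantel hE hq ha
  rw [h1, h2] at b1 b2
  have b3 : tri E q q q ≤ g ^ 3 / 3 := by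
    have := dens_le_L_hom hE hq
    rw [h1] at this
    have h3 : L * g ^ 3 ≤ 1 / 3 * g ^ 3 :=
      mul_le_mul_of_nonneg_right KS.L_le_third (by positivity)
    have h4 : tri E q q q = KF.dens E q := rfl
    rw [h4]
    linarith
  have b4 : tri E a a a ≤ 1 / 3 := by
    have := dens_le_L_hom hE ha
    rw [h2] at this
    have h4 : tri E a a a = KF.dens E a := rfl
    rw [h4]
    have := KS.L_le_third
    nlinarith
  have n1 := tri_nonneg E hq hq hq
  have n2 := tri_nonneg E ha hq hq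
  have n3 := tri_nonneg E hq ha ha
  have n4 := tri_nonneg E ha ha ha
  rw [e1]
  have g2 : 0 ≤ g ^ 2 := sq_nonneg g
  have g3 : 0 ≤ g ^ 3 := by positivity
  constructor
  · have c1 : 3 * g * tri E a q q ≤ 3 * g * (1 * (g ^ 2 / 2)) :=
      mul_le_mul_of_nonneg_left b1 (by positivity)
    have c2 : g ^ 3 * tri E a a a ≤ g ^ 3 * (1 / 3) := mul_le_mul_of_nonneg_left b4 g3
    have c3 : 0 ≤ 3 * g ^ 2 * tri E q a a := mul_nonneg (by positivity) n3
    nlinarith
  · have c1 : 0 ≤ 3 * g * tri E a q q := mul_nonneg (by positivity) n2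
    have c2 : 0 ≤ g ^ 3 * tri E a a a := mul_nonneg g3 n4
    have c3 : 3 * g ^ 2 * tri E q a a ≤ 3 * g ^ 2 * (g * (1 ^ 2 / 2)) :=
      mul_le_mul_of_nonneg_left b2 (by positivity)
    nlinarith

/-- Quadratic error term of a link. -/
theorem tri_vuu [DecidableEq V] (hE : K4m E) (v : V) {q a : V → ℝ} (hq : ∀ x, 0 ≤ q x)
    (ha : ∀ x, 0 ≤ a x) {g : ℝ} (hg : 0 ≤ g) (h1 : ∑ x, q x = g) (h2 : ∑ x, a x = 1) :
    -(2 * g ^ 2) ≤ tri E (pt v) (q + (-g) • a) (q + (-g) • a) ∧
      tri E (pt v) (q + (-g) • a) (q + (-g) • a) ≤ g ^ 2 := by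
  have hp := pt_nonneg v
  have e1 : tri E (pt v) (q + (-g) • a) (q + (-g) • a) =
      tri E (pt v) q q - 2 * g * tri E (pt v) q a + g ^ 2 * tri E (pt v) a a := by
    simp only [tri_add2 hE, tri_add3 hE, tri_smul2 hE, tri_smul3 hE]
    rw [tri_swap23 hE (pt v) a q]
    ring
  have e2 : tri E (pt v) (q + g • a) (q + g • a) =
      tri E (pt v) q q + 2 * g * tri E (pt v) q a + g ^ 2 * tri E (pt v) a a := by
    simp only [tri_add2 hE, tri_add3 hE, tri_smul2 hE, tri_smul3 hE]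
    rw [tri_swap23 hE (pt v) a q]
    ring
  have b1 := mantel hE v hq
  have b2 := mantel hE v ha
  have b3 := mantel hE v (q := q + g • a) (fun x => by
    have := hq x
    have := ha x
    simp only [Pi.add_apply, Pi.smul_apply, smul_eq_mul]
    positivity)
  have s3 : ∑ x, (q + g • a) x = 2 * g := by
    simp only [Pi.add_apply, Pi.smul_apply, smul_eq_mul, sum_add_distrib, ← mul_sum, h1, h2]
    ring
  rw [s3, e2] at b3
  rw [h1] at b1
  rw [h2] at b2
  have n1 := tri_nonneg E hp hq hq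
  have n2 := tri_nonneg E hp hq ha
  have n3 := tri_nonneg E hp ha ha
  have g2 : 0 ≤ g ^ 2 := sq_nonneg g
  have n3' : 0 ≤ g ^ 2 * tri E (pt v) a a := mul_nonneg g2 n3
  have n2' : 0 ≤ 2 * g * tri E (pt v) q a := mul_nonneg (by positivity) n2
  have b2' : g ^ 2 * tri E (pt v) a a ≤ g ^ 2 * (1 ^ 2 / 2) := mul_le_mul_of_nonneg_left b2 g2
  rw [e1]
  constructor <;> nlinarith

end

section
variable {V : Type} [Fintype V] {E : V → V → V → Bool} {w : V → ℝ} {κ : V → Option (Fin 6)}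
  {α : Fin 6 → ℝ}

theorem uuu (ho : Opt E w) (hx : ∀ i, xsO w κ i ≠ 0) (hα : ∀ i, 0 ≤ α i) (h1 : ∑ i, α i = 1) :
    -(11 / 6 * unO w κ ^ 3) ≤ tri E (up w κ α) (up w κ α) (up w κ α) ∧
      tri E (up w κ α) (up w κ α) (up w κ α) ≤ 11 / 6 * unO w κ ^ 3 :=
  tri_uuu ho.free (q := wi w (zO κ)) (a := al w κ α)
    (fun x => mul_nonneg (ho.wt.nn x) (zO_nn x)) (al_nn ho.wt.nn hα) (unO_nn ho.wt.nn) rfl
    (by rw [al_sum hx, h1])

theorem vuu [DecidableEq V] (ho : Opt E w) (hx : ∀ i, xsO w κ i ≠ 0) (hα : ∀ i, 0 ≤ α i)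
    (h1 : ∑ i, α i = 1) (v : V) : -(2 * unO w κ ^ 2) ≤ tri E (pt v) (up w κ α) (up w κ α) ∧
      tri E (pt v) (up w κ α) (up w κ α) ≤ unO w κ ^ 2 :=
  tri_vuu ho.free v (q := wi w (zO κ)) (a := al w κ α)
    (fun x => mul_nonneg (ho.wt.nn x) (zO_nn x)) (al_nn ho.wt.nn hα) (unO_nn ho.wt.nn) rfl
    (by rw [al_sum hx, h1])

/-- The degrees in the new environment. -/
theorem deg_near (ho : Opt E w) (hx : ∀ i, xsO w κ i ≠ 0) (hα : ∀ i, 0 ≤ α i)
    (h1 : ∑ i, α i = 1) {δ : ℝ} (hδ : 0 ≤ δ)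
    (hK : dens E w * EK E w (up w κ α) ≤ δ ^ 2) (v : V) :
    |deg E (wp w κ α) v - dens E w| ≤ 2 * δ + 2 * unO w κ ^ 2 := by
  classical
  have h2 := deg_w' ho (up w κ α) v
  rw [← wp_eq] at h2
  have h3 := cod_small ho (up_sum (w := w) (κ := κ) hx h1) v
  have h4 : |tri E (pt v) (up w κ α) w| ≤ δ := abs_le_of_sq_le_sq (by linarith) hδ
  obtain ⟨h5, h6⟩ := vuu ho hx hα h1 v
  have h7 := abs_le.1 h4
  have h8 : 0 ≤ unO w κ ^ 2 := sq_nonneg _
  rw [h2, abs_le]
  constructor <;> linarith [h7.1, h7.2]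

/-- The energy is of second order. -/
theorem EK_le (ho : Opt E w) (hx : ∀ i, 0 < xsO w κ i) (hα : ∀ i, 0 ≤ α i)
    (h1 : ∑ i, α i = 1) (hg : unO w κ ≤ 1 / 50)
    (hmax : ∀ β : Fin 6 → ℝ, (∀ i, 0 ≤ β i) → ∑ i, β i = 1 →
      dens E (wp w κ β) ≤ dens E (wp w κ α)) :
    EK E w (up w κ α) ≤ 27 / 25 * dens E w * unO w κ ^ 2 + 11 / 18 * unO w κ ^ 3 := by
  have hE := ho.free
  have hw := ho.wt
  have hx' : ∀ i, xsO w κ i ≠ 0 := fun i => (hx i).ne'
  set g := unO w κ with hgd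
  have g0 : 0 ≤ g := unO_nn hw.nn
  have hs : 0 < 1 - g := by linarith
  have hsum : ∑ i, xsO w κ i = 1 - g := sum_xsO hw
  -- proportional redistribution
  set β : Fin 6 → ℝ := fun i => xsO w κ i / (1 - g) with hβ
  have hβ0 : ∀ i, 0 ≤ β i := fun i => div_nonneg (hx i).le hs.le
  have hβ1 : ∑ i, β i = 1 := by
    rw [hβ]
    beta_reduce
    rw [← sum_div, hsum, div_self hs.ne']
  have hwp : wp w κ β = (1 - g)⁻¹ • wo w (zO κ) := by
    unfold wp al
    funext v
    simp only [Pi.add_apply, Pi.smul_apply, smul_eq_mul, hβ]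
    have h2 : sc w κ (fun i => xsO w κ i / (1 - g) / xsO w κ i) v =
        (1 - g)⁻¹ * wo w (zO κ) v := by
      rw [← sc_one]
      unfold sc
      cases κ v with
      | none => simp
      | some i =>
        simp only [Option.elim_some]
        have := hx' i
        field_simp
    rw [h2, ← hgd]
    field_simp
    ring
  have h2 := hmax β hβ0 hβ1
  rw [hwp, dens_smul] at h2
  have h3 := le_dens_out ho (z := zO κ) zO_nn zO_le
  have h4 : ∑ v, w v * zO κ v = g := rfl
  rw [h4] at h3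
  have h5 := dens_w' ho (up_sum (w := w) (κ := κ) hx' h1)
  rw [← wp_eq] at h5
  have h6 := (uuu ho hx' hα h1).1
  rw [← hgd] at h6
  have hd0 : 0 ≤ dens E w := dens_nonneg E hw.nn
  have h7 : (1 - g)⁻¹ ^ 3 * (dens E w * (1 - 3 * g)) ≤ (1 - g)⁻¹ ^ 3 * dens E (wo w (zO κ)) :=
    mul_le_mul_of_nonneg_left h3 (by positivity)
  have h8 : 1 - 81 / 25 * g ^ 2 ≤ (1 - g)⁻¹ ^ 3 * (1 - 3 * g) := by
    rw [inv_pow, ← div_eq_inv_mul, le_div_iff₀ (by positivity)]
    have e : (1 - 81 / 25 * g ^ 2) * (1 - g) ^ 3 = (1 - 3 * g) -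
        g ^ 2 * (6 / 25 - 218 / 25 * g + 243 / 25 * g ^ 2 - 81 / 25 * g ^ 3) := by ring
    rw [e]
    have : 0 ≤ g ^ 2 * (6 / 25 - 218 / 25 * g + 243 / 25 * g ^ 2 - 81 / 25 * g ^ 3) := by
      refine mul_nonneg (sq_nonneg g) ?_
      have a1 : g ^ 3 ≤ g ^ 2 := by nlinarith [sq_nonneg g]
      nlinarith [sq_nonneg g]
    linarith
  have h9 : dens E w * (1 - 81 / 25 * g ^ 2) ≤ dens E w * ((1 - g)⁻¹ ^ 3 * (1 - 3 * g)) :=
    mul_le_mul_of_nonneg_left h8 hd0
  nlinarith

/-- There is an unassigned vertex whose degree in the new environment beats all class averages. -/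
theorem exists_Z (ho : Opt E w) (hx : ∀ i, xsO w κ i ≠ 0) (hα : ∀ i, 0 ≤ α i)
    (h1 : ∑ i, α i = 1) (hg : 0 < unO w κ)
    (hb : ∀ b, unO w κ * lam E w κ α b ≤ unO w κ * lst E w κ α) :
    ∃ v, κ v = none ∧ ∀ b, lam E w κ α b + 2 * EK E w (up w κ α) / unO w κ -
      11 / 6 * unO w κ ^ 2 ≤ deg E (wp w κ α) v := by
  classical
  set g := unO w κ with hgd
  set K := EK E w (up w κ α) with hK
  have h2 := tri_Z ho hx h1
  have h3 := (uuu ho hx hα h1).1
  rw [← hgd] at h2 h3
  have hb' : ∀ b, lam E w κ α b ≤ lst E w κ α := fun b => le_of_mul_le_mul_left (hb b) hg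
  by_contra hcon
  push Not at hcon
  have h4 : tri E (wi w (zO κ)) (wp w κ α) (wp w κ α) =
      ∑ v, w v * zO κ v * deg E (wp w κ α) v := by
    rw [tri_eq_sum]
    exact sum_congr rfl fun v _ => by rw [tri_pt_deg]; rfl
  have h5 : ∀ v, w v * zO κ v * deg E (wp w κ α) v ≤
      w v * zO κ v * (lst E w κ α + 2 * K / g - 11 / 6 * g ^ 2) := by
    intro v
    cases hv : κ v with
    | some i =>
      have : zO κ v = 0 := by unfold zO; rw [hv]; simp
      rw [this]
      simp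
    | none =>
      obtain ⟨b, hb2⟩ := hcon v hv
      refine mul_le_mul_of_nonneg_left ?_ (mul_nonneg (ho.wt.nn v) (zO_nn v))
      linarith [hb' b]
  have h6 : ∃ v, κ v = none := by
    by_contra hc
    push Not at hc
    have : g = 0 := by
      rw [hgd, unO_eq]
      refine sum_eq_zero fun v _ => ?_
      have : zO κ v = 0 := by
        unfold zO
        cases hv : κ v with
        | none => exact absurd hv (hc v)
        | some i => simp
      rw [this, mul_zero]
    linarith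
  obtain ⟨v0, hv0⟩ := h6
  have h7 : ∑ v, w v * zO κ v * deg E (wp w κ α) v <
      ∑ v, w v * zO κ v * (lst E w κ α + 2 * K / g - 11 / 6 * g ^ 2) := by
    refine sum_lt_sum (fun v _ => h5 v) ⟨v0, mem_univ v0, ?_⟩
    obtain ⟨b, hb2⟩ := hcon v0 hv0
    have hz : zO κ v0 = 1 := by unfold zO; rw [hv0]; simp
    rw [hz, mul_one]
    refine mul_lt_mul_of_pos_left ?_ (ho.pos v0)
    linarith [hb' b]
  rw [← sum_mul, ← unO_eq, ← hgd, ← h4, h2] at h7
  have h8 : g * (lst E w κ α + 2 * K / g - 11 / 6 * g ^ 2) =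
      g * lst E w κ α + 2 * K - 11 / 6 * g ^ 3 := by
    field_simp
  rw [h8] at h7
  linarith

end

end KW
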