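import Pool.Agent.Helper64.K4.WP2
import Pool.Agent.Helper20.KT.X2
import Pool.Agent.Helper85.KB.B4

/-!
# The environment `w'` as a total partition
-/

set_option autoImplicit false

open Finset hiding dens

namespace KW

open KF KT
open KC (wi wo wi_add_wo le_dens_out)

/-! ## Any weights and any total partition -/

section
variable {V : Type} [Fintype V] {E : V → V → V → Bool} {W : V → ℝ} {k : V → Fin 6}

/-- Class sum of the degrees. -/
theorem cls_gen (i : Fin 6) : ∑ a, W a * KB.ic k i a * deg E W a =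
    KB.xs W k i * KB.PP W k i - KB.mi E W k i + KB.bi E W k i + KB.ei E W k i := by
  have h1 : ∀ a, W a * KB.ic k i a * deg E W a = W a * KB.ic k i a * KB.PP W k i -
      W a * KB.ic k i a * KB.mm E W k a + W a * KB.ic k i a * KB.bb E W k a +
      W a * KB.ic k i a * KB.gg E W k a := by
    intro a
    have h2 := KB.deg_split (E := E) (w := W) (κ := k) a
    have h3 := KB.ic_of (κ := k) i a (fun i => KB.PP W k i)
    beta_reduce at h3
    rw [h2]
    have h4 : W a * KB.ic k i a * (KB.PP W k (k a) - KB.mm E W k a + KB.bb E W k a +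
      KB.gg E W k a) = W a * (KB.ic k i a * KB.PP W k (k a)) - W a * KB.ic k i a * KB.mm E W k a +
      W a * KB.ic k i a * KB.bb E W k a + W a * KB.ic k i a * KB.gg E W k a := by ring
    rw [h4, h3]
    ring
  unfold KB.xs KB.mi KB.bi KB.ei
  rw [sum_congr rfl fun a _ => h1 a, sum_add_distrib, sum_add_distrib, sum_sub_distrib,
    ← sum_mul]

/-- The global identity. -/
theorem glob_gen : KF.dens E W = ∑ i, KB.xs W k i * KB.PP W k i - KB.mu E W k +
    KB.bet E W k + ∑ i, KB.ei E W k i := by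
  rw [← sum_deg, ← KB.sum_part (κ := k) (deg E W), ← KB.sum_mi, ← KB.sum_bi, ← sum_sub_distrib,
    ← sum_add_distrib, ← sum_add_distrib]
  exact sum_congr rfl fun i _ => cls_gen i

/-- The defect of the inside of a part. -/
noncomputable def df (E : V → V → V → Bool) (W : V → ℝ) (k : V → Fin 6) (i : Fin 6) : ℝ :=
  L * KB.xs W k i ^ 3 - KB.ei E W k i

theorem df_nn (hE : K4m E) (hW : Wt W) (i : Fin 6) : 0 ≤ df E W k i :=
  sub_nonneg.2 (KB.ei_le hE hW i)

theorem cub_one {t : Fin 6 → ℝ} {τ l : ℝ} (hl : 0 ≤ l) (h0 : ∑ i, t i = 0) (hτ : ∀ i, t i ≤ τ) :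
    ∑ i, t i * KB.qq t i + l * ∑ i, t i ^ 3 ≤ (10 + l) * τ * ∑ i, t i ^ 2 := by
  set r := ∑ j, t j ^ 2 with hr
  have hr0 : 0 ≤ r := Finset.sum_nonneg fun j _ => sq_nonneg _
  have h1 : ∑ i, t i * KB.qq t i + l * ∑ j, t j ^ 3 = ∑ i, t i * (KB.qq t i + l * t i ^ 2) := by
    rw [Finset.mul_sum, ← Finset.sum_add_distrib]
    exact Finset.sum_congr rfl fun i _ => by ring
  have h2 : ∑ i, t i * (KB.qq t i + l * t i ^ 2) =
      τ * (∑ i, (KB.qq t i + l * t i ^ 2)) - ∑ i, (τ - t i) * (KB.qq t i + l * t i ^ 2) := by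
    rw [Finset.mul_sum, ← Finset.sum_sub_distrib]
    exact Finset.sum_congr rfl fun i _ => by ring
  have h3 : ∑ i, (KB.qq t i + l * t i ^ 2) = -(2 * r) + l * r := by
    rw [Finset.sum_add_distrib, KB.sum_qq h0, ← Finset.mul_sum]
  have h4 : -(∑ i, (τ - t i) * (KB.qq t i + l * t i ^ 2)) ≤ ∑ i, (τ - t i) * (2 * r) := by
    rw [← Finset.sum_neg_distrib]
    refine Finset.sum_le_sum fun i _ => ?_
    have h5 := KB.qq_ge (t := t) i
    have h6 : 0 ≤ τ - t i := by linarith [hτ i]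
    have h7 : 0 ≤ l * t i ^ 2 := by positivity
    nlinarith
  have h5 : ∑ i, (τ - t i) * (2 * r) = 12 * τ * r := by
    rw [← Finset.sum_mul, Finset.sum_sub_distrib, h0]
    simp
    ring
  rw [h1, h2, h3]
  linarith

/-- The main identity as an inequality, for any weights and any total partition. -/
theorem s9 (hE : K4m E) (hW : Wt W) {η τ : ℝ} (hη : L - η ≤ KF.dens E W) (hL : L ≤ 29 / 100)
    (hτ0 : 0 ≤ τ) (ht : ∀ i, KB.tt W k i ≤ τ) :
    35 / 36 * (L - 2 / 7) + (171 / 200 - 103 / 10 * τ) * ∑ i, KB.tt W k i ^ 2 +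
      ∑ i, df E W k i + KB.mu E W k ≤ KB.bet E W k + η := by
  have h0 := KB.sum_tt (κ := k) hW
  have h1 := glob_gen (E := E) (W := W) (k := k)
  have hL0 := L_nonneg
  have e1 : ∑ i, KB.xs W k i * KB.PP W k i = 10 / 36 - ∑ i, KB.tt W k i ^ 2 +
      ∑ i, KB.tt W k i * KB.qq (KB.tt W k) i := by
    rw [← KB.F_exp h0]
    exact sum_congr rfl fun i _ => by rw [KB.PP_tt hW, KB.xs_tt]
  have e2 : ∑ i, KB.xs W k i ^ 3 = 1 / 36 + (∑ i, KB.tt W k i ^ 2) / 2 +
      ∑ i, KB.tt W k i ^ 3 := by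
    rw [← KB.cub_exp h0]
    exact sum_congr rfl fun i _ => by rw [KB.xs_tt]
  have e3 : ∑ i, KB.ei E W k i = L * ∑ i, KB.xs W k i ^ 3 - ∑ i, df E W k i := by
    unfold df
    rw [sum_sub_distrib, mul_sum]
    ring
  rw [e1, e3, e2] at h1
  set S := ∑ i, KB.tt W k i ^ 2 with hS
  have hS0 : 0 ≤ S := sum_nonneg fun i _ => sq_nonneg _
  have h3 := cub_one (l := L) hL0 h0 ht
  rw [← hS] at h3
  have c1 : (171 / 200 - 103 / 10 * τ) * S ≤ (1 - L / 2 - (10 + L) * τ) * S := by
    refine mul_le_mul_of_nonneg_right ?_ hS0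
    have c2 : L * τ ≤ 29 / 100 * τ := mul_le_mul_of_nonneg_right hL hτ0
    linarith
  rw [h1] at hη
  nlinarith

end

/-! ## The environment -/

section
variable {V : Type} [Fintype V] {E : V → V → V → Bool} {w : V → ℝ} {κ : V → Option (Fin 6)}
  {α : Fin 6 → ℝ}

/-- The total partition: unassigned vertices are put into the class `0` (they have weight `0`). -/
def kt (κ : V → Option (Fin 6)) : V → Fin 6 := fun v => (κ v).getD 0

/-- The factor of a class. -/
noncomputable def rh (w : V → ℝ) (κ : V → Option (Fin 6)) (α : Fin 6 → ℝ) (i : Fin 6) : ℝ :=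
  1 + unO w κ * α i / xsO w κ i

theorem wp_val (v : V) : wp w κ α v = w v * (κ v).elim 0 (rh w κ α) := by
  unfold wp al sc wo zO rh
  simp only [Pi.add_apply, Pi.smul_apply, smul_eq_mul]
  cases κ v with
  | none => simp
  | some i =>
    simp only [Option.isNone_some, b2r_false, Option.elim_some]
    ring

theorem wp_none {v : V} (h : κ v = none) : wp w κ α v = 0 := by
  rw [wp_val, h]
  simp

theorem wp_some {v : V} {i : Fin 6} (h : κ v = some i) : wp w κ α v = w v * rh w κ α i := by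
  rw [wp_val, h]
  rfl

theorem rh_ge (hw : ∀ v, 0 ≤ w v) (hα : ∀ i, 0 ≤ α i) (i : Fin 6) : 1 ≤ rh w κ α i := by
  unfold rh
  have := div_nonneg (mul_nonneg (unO_nn (κ := κ) hw) (hα i)) (xsO_nn (κ := κ) hw i)
  linarith

theorem wp_ic (i : Fin 6) (v : V) :
    wp w κ α v * KB.ic (kt κ) i v = rh w κ α i * (w v * icO κ i v) := by
  unfold KB.ic kt icO
  cases h : κ v with
  | none =>
    rw [wp_none h]
    simp
  | some j =>
    rw [wp_some h]
    by_cases hj : j = i
    · subst hj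
      simp
      ring
    · have : ¬ (some j = some i) := fun h => hj (Option.some.inj h)
      simp [hj]

theorem xs_wp (hx : ∀ i, xsO w κ i ≠ 0) (i : Fin 6) :
    KB.xs (wp w κ α) (kt κ) i = xsO w κ i + unO w κ * α i := by
  unfold KB.xs
  simp only [wp_ic, ← mul_sum, ← xsO_eq]
  unfold rh
  have := hx i
  field_simp

theorem xs_rh (hx : ∀ i, xsO w κ i ≠ 0) (i : Fin 6) :
    KB.xs (wp w κ α) (kt κ) i = rh w κ α i * xsO w κ i := by
  rw [xs_wp hx]
  unfold rh
  have := hx i
  field_simp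

theorem Wt_wp (hw : Wt w) (hx : ∀ i, xsO w κ i ≠ 0) (hα : ∀ i, 0 ≤ α i) (h1 : ∑ i, α i = 1) :
    Wt (wp w κ α) := ⟨wp_nn hw.nn hα, wp_sum hw hx h1⟩

/-- The class averages. -/
theorem lam_eq (hx : ∀ i, xsO w κ i ≠ 0) (i : Fin 6) :
    KB.xs (wp w κ α) (kt κ) i * lam E w κ α i =
      KB.xs (wp w κ α) (kt κ) i * KB.PP (wp w κ α) (kt κ) i - KB.mi E (wp w κ α) (kt κ) i +
        KB.bi E (wp w κ α) (kt κ) i + KB.ei E (wp w κ α) (kt κ) i := by
  classical
  rw [← cls_gen]
  unfold lam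
  rw [tri_eq_sum, mul_sum]
  refine sum_congr rfl fun v _ => ?_
  rw [tri_pt_deg, wp_ic, xs_rh hx]
  have h2 : al w κ (Pi.single i 1) v = w v * icO κ i v / xsO w κ i := by
    unfold al sc icO
    cases h : κ v with
    | none => simp
    | some j =>
      simp only [Option.elim_some]
      by_cases hj : j = i
      · subst hj
        simp
        ring
      · have : ¬ (some j = some i) := fun h => hj (Option.some.inj h)
        rw [Pi.single_eq_of_ne hj]
        simp [hj]
  rw [h2]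
  have := hx i
  field_simp

/-- The density of the environment. -/
theorem dens_wp (ho : Opt E w) (hx : ∀ i, xsO w κ i ≠ 0) (hα : ∀ i, 0 ≤ α i)
    (h1 : ∑ i, α i = 1) {θ : ℝ} (hθ : L - θ ≤ dens E w) :
    L - (θ + 3 * EK E w (up w κ α) + 11 / 6 * unO w κ ^ 3) ≤ dens E (wp w κ α) := by
  have h2 := dens_w' ho (up_sum (w := w) (κ := κ) hx h1)
  rw [← wp_eq] at h2
  have h3 := (uuu ho hx hα h1).2
  rw [h2]
  linarith

/-- Sizes. -/
theorem tt_wp (hx : ∀ i, xsO w κ i ≠ 0) (i : Fin 6) : KB.tt (wp w κ α) (kt κ) i =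
    xsO w κ i - 1 / 6 + unO w κ * α i := by
  unfold KB.tt
  rw [xs_wp hx]
  ring

/-! ### Missing pairs and triples -/

/-- Missing pairs of a vertex in any environment, index `i`. -/
noncomputable def mv (E : V → V → V → Bool) (W : V → ℝ) (k : V → Fin 6) (i : Fin 6) (v : V) : ℝ :=
  ∑ y, ∑ z, W y * W z * (b2r (D6 i (k y) (k z)) * (1 - b2r (E v y z)))

theorem mm_eq_mv (W : V → ℝ) (k : V → Fin 6) (v : V) : KB.mm E W k v = mv E W k (k v) v := rfl

/-- Product of two factors of different classes. -/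
theorem rh_two (hw : ∀ v, 0 ≤ w v) (hα : ∀ i, 0 ≤ α i) (h1 : ∑ i, α i = 1) {m : ℝ} (hm : 0 < m)
    (hx : ∀ i, m ≤ xsO w κ i) {i j : Fin 6} (hij : i ≠ j) :
    rh w κ α i * rh w κ α j ≤ (1 + unO w κ / (2 * m)) ^ 2 := by
  have hg := unO_nn (κ := κ) hw
  have a1 : ∀ i, rh w κ α i ≤ 1 + unO w κ * α i / m := by
    intro i
    unfold rh
    have : unO w κ * α i / xsO w κ i ≤ unO w κ * α i / m :=
      div_le_div_of_nonneg_left (mul_nonneg hg (hα i)) hm (hx i)
    linarith
  have a2 : α i + α j ≤ 1 := by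
    rw [← h1]
    have : ∑ l ∈ ({i, j} : Finset (Fin 6)), α l ≤ ∑ l, α l :=
      sum_le_sum_of_subset_of_nonneg (subset_univ _) fun l _ _ => hα l
    rwa [sum_pair hij] at this
  have a3 : rh w κ α i * rh w κ α j ≤ (1 + unO w κ * α i / m) * (1 + unO w κ * α j / m) :=
    mul_le_mul (a1 i) (a1 j) (by linarith [rh_ge (κ := κ) hw hα j])
      (by linarith [a1 i, rh_ge (κ := κ) hw hα i])
  refine a3.trans ?_
  have hgm : 0 ≤ unO w κ / m := div_nonneg hg hm.le
  have e1 : unO w κ * α i / m = unO w κ / m * α i := by ring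
  have e2 : unO w κ * α j / m = unO w κ / m * α j := by ring
  have e3 : unO w κ / (2 * m) = unO w κ / m / 2 := by
    field_simp
  rw [e1, e2, e3]
  set c := unO w κ / m
  have b1 : c * (α i + α j) ≤ c * 1 := mul_le_mul_of_nonneg_left a2 hgm
  have b2 : 0 ≤ c * α i := mul_nonneg hgm (hα i)
  have b3 : 0 ≤ c * α j := mul_nonneg hgm (hα j)
  nlinarith [sq_nonneg (c * α i - c * α j)]

theorem rh_three (hw : ∀ v, 0 ≤ w v) (hα : ∀ i, 0 ≤ α i) (h1 : ∑ i, α i = 1) {m : ℝ}
    (hm : 0 < m) (hx : ∀ i, m ≤ xsO w κ i) {i j l : Fin 6} (hij : i ≠ j) (hil : i ≠ l)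
    (hjl : j ≠ l) :
    rh w κ α i * rh w κ α j * rh w κ α l ≤ (1 + unO w κ / (3 * m)) ^ 3 := by
  have hg := unO_nn (κ := κ) hw
  have a1 : ∀ i, rh w κ α i ≤ 1 + unO w κ / m * α i := by
    intro i
    unfold rh
    have : unO w κ * α i / xsO w κ i ≤ unO w κ * α i / m :=
      div_le_div_of_nonneg_left (mul_nonneg hg (hα i)) hm (hx i)
    have e : unO w κ / m * α i = unO w κ * α i / m := by ring
    linarith
  have a2 : α i + α j + α l ≤ 1 := by
    rw [← h1]
    have : ∑ l ∈ ({i, j, l} : Finset (Fin 6)), α l ≤ ∑ l, α l :=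
      sum_le_sum_of_subset_of_nonneg (subset_univ _) fun l _ _ => hα l
    rwa [sum_insert (by simp [hij, hil]), sum_pair hjl, ← add_assoc] at this
  set c := unO w κ / m with hc
  have hgm : 0 ≤ c := div_nonneg hg hm.le
  have r0 : ∀ i, 0 ≤ rh w κ α i := fun i => by linarith [rh_ge (κ := κ) hw hα i]
  have p0 : ∀ i, 0 ≤ c * α i := fun i => mul_nonneg hgm (hα i)
  have a3 : rh w κ α i * rh w κ α j * rh w κ α l ≤
      (1 + c * α i) * (1 + c * α j) * (1 + c * α l) :=
    mul_le_mul (mul_le_mul (a1 i) (a1 j) (r0 j) (by linarith [p0 i])) (a1 l) (r0 l)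
      (mul_nonneg (by linarith [p0 i]) (by linarith [p0 j]))
  refine a3.trans ?_
  have e3 : unO w κ / (3 * m) = c / 3 := by
    rw [hc]
    field_simp
  rw [e3]
  -- AM-GM
  set p := 1 + c * α i with hp
  set q := 1 + c * α j with hq
  set r := 1 + c * α l with hr
  have hp0 : 0 < p := by linarith [p0 i]
  have hq0 : 0 < q := by linarith [p0 j]
  have hr0 : 0 < r := by linarith [p0 l]
  have hs : p + q + r ≤ 3 + c := by
    have : c * (α i + α j + α l) ≤ c * 1 := mul_le_mul_of_nonneg_left a2 hgm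
    rw [hp, hq, hr]
    linarith
  have h27 : 27 * (p * q * r) ≤ (p + q + r) ^ 3 := by
    nlinarith [mul_nonneg hp0.le (sq_nonneg (q - r)), mul_nonneg hq0.le (sq_nonneg (p - r)),
      mul_nonneg hr0.le (sq_nonneg (p - q)), mul_nonneg (add_pos (add_pos hp0 hq0) hr0).le
      (add_nonneg (add_nonneg (sq_nonneg (p - q)) (sq_nonneg (q - r))) (sq_nonneg (p - r)))]
  have h28 : (p + q + r) ^ 3 ≤ (3 + c) ^ 3 :=
    pow_le_pow_left₀ (by positivity) hs 3
  have e4 : (1 + c / 3) ^ 3 = (3 + c) ^ 3 / 27 := by ring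
  rw [e4]
  linarith

theorem D6_ne {i j l : Fin 6} (h : D6 i j l = true) : i ≠ j ∧ i ≠ l ∧ j ≠ l := by
  revert i j l
  decide

/-- Missing pairs in the environment, upper bound. -/
theorem mv_le (hw : ∀ v, 0 ≤ w v) (hα : ∀ i, 0 ≤ α i) (h1 : ∑ i, α i = 1) {m : ℝ} (hm : 0 < m)
    (hx : ∀ i, m ≤ xsO w κ i) (i : Fin 6) (v : V) :
    mv E (wp w κ α) (kt κ) i v ≤ (1 + unO w κ / (2 * m)) ^ 2 * mo E w κ (some i) v := by
  unfold mv mo
  rw [mul_sum]
  refine sum_le_sum fun y _ => ?_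
  rw [mul_sum]
  refine sum_le_sum fun z _ => ?_
  have hc : 0 ≤ (1 + unO w κ / (2 * m)) ^ 2 := sq_nonneg _
  have hE0 : 0 ≤ 1 - b2r (E v y z) := by linarith [b2r_le_one (E v y z)]
  cases hy : κ y with
  | none =>
    rw [wp_none hy, zero_mul, zero_mul]
    exact mul_nonneg hc (mul_nonneg (mul_nonneg (hw y) (hw z)) (mul_nonneg (b2r_nonneg _) hE0))
  | some a =>
    cases hz : κ z with
    | none =>
      rw [wp_none hz, mul_zero, zero_mul]
      exact mul_nonneg hc (mul_nonneg (mul_nonneg (hw y) (hw z)) (mul_nonneg (b2r_nonneg _) hE0))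
    | some b =>
      have e1 : kt κ y = a := by unfold kt; rw [hy]; rfl
      have e2 : kt κ z = b := by unfold kt; rw [hz]; rfl
      rw [wp_some hy, wp_some hz, e1, e2]
      change w y * rh w κ α a * (w z * rh w κ α b) * (b2r (D6 i a b) * (1 - b2r (E v y z))) ≤
        (1 + unO w κ / (2 * m)) ^ 2 * (w y * w z * (b2r (D6 i a b) * (1 - b2r (E v y z))))
      by_cases hD : D6 i a b = true
      · obtain ⟨-, -, hab⟩ := D6_ne hD
        have h3 := rh_two (κ := κ) hw hα h1 hm hx hab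
        have h4 : 0 ≤ w y * w z * (b2r (D6 i a b) * (1 - b2r (E v y z))) :=
          mul_nonneg (mul_nonneg (hw y) (hw z)) (mul_nonneg (b2r_nonneg _) hE0)
        have h5 := mul_le_mul_of_nonneg_right h3 h4
        linarith
      · have : D6 i a b = false := by simpa using hD
        rw [this]
        simp

/-- Missing pairs in the environment, lower bound. -/
theorem le_mv (hw : ∀ v, 0 ≤ w v) (hα : ∀ i, 0 ≤ α i) (i : Fin 6) (v : V) :
    mo E w κ (some i) v ≤ mv E (wp w κ α) (kt κ) i v := by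
  unfold mv mo
  refine sum_le_sum fun y _ => sum_le_sum fun z _ => ?_
  have hE0 : 0 ≤ 1 - b2r (E v y z) := by linarith [b2r_le_one (E v y z)]
  cases hy : κ y with
  | none =>
    rw [wp_none hy]
    simp [dO]
  | some a =>
    cases hz : κ z with
    | none =>
      rw [wp_none hz]
      simp [dO]
    | some b =>
      have e1 : kt κ y = a := by unfold kt; rw [hy]; rfl
      have e2 : kt κ z = b := by unfold kt; rw [hz]; rfl
      rw [wp_some hy, wp_some hz, e1, e2]
      change w y * w z * (b2r (D6 i a b) * (1 - b2r (E v y z))) ≤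
        w y * rh w κ α a * (w z * rh w κ α b) * (b2r (D6 i a b) * (1 - b2r (E v y z)))
      have h3 : 1 ≤ rh w κ α a * rh w κ α b := by
        have h5 := rh_ge (κ := κ) hw hα a
        have h6 := rh_ge (κ := κ) hw hα b
        nlinarith
      have h4 : 0 ≤ w y * w z * (b2r (D6 i a b) * (1 - b2r (E v y z))) :=
        mul_nonneg (mul_nonneg (hw y) (hw z)) (mul_nonneg (b2r_nonneg _) hE0)
      have h5 := mul_le_mul_of_nonneg_right h3 h4
      linarith

/-- Missing triples in the environment. -/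
theorem mu_le (hw : ∀ v, 0 ≤ w v) (hα : ∀ i, 0 ≤ α i) (h1 : ∑ i, α i = 1) {m : ℝ} (hm : 0 < m)
    (hx : ∀ i, m ≤ xsO w κ i) :
    KB.mu E (wp w κ α) (kt κ) ≤ (1 + unO w κ / (3 * m)) ^ 3 * muO E w κ := by
  unfold KB.mu KB.mm muO
  rw [mul_sum]
  refine sum_le_sum fun x _ => ?_
  rw [mul_sum, mul_sum]
  refine sum_le_sum fun y _ => ?_
  rw [mul_sum, mul_sum]
  refine sum_le_sum fun z _ => ?_
  have hg := unO_nn (κ := κ) hw
  have hc : 0 ≤ (1 + unO w κ / (3 * m)) ^ 3 := by positivity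
  have hE0 : 0 ≤ 1 - b2r (E x y z) := by linarith [b2r_le_one (E x y z)]
  have h4 : ∀ b : Bool, 0 ≤ w x * w y * w z * (b2r b * (1 - b2r (E x y z))) := fun b =>
    mul_nonneg (mul_nonneg (mul_nonneg (hw x) (hw y)) (hw z)) (mul_nonneg (b2r_nonneg _) hE0)
  cases hX : κ x with
  | none =>
    rw [wp_none hX, zero_mul]
    exact mul_nonneg hc (h4 _)
  | some a =>
    cases hy : κ y with
    | none =>
      rw [wp_none hy, zero_mul, zero_mul, mul_zero]
      exact mul_nonneg hc (h4 _)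
    | some b =>
      cases hz : κ z with
      | none =>
        rw [wp_none hz, mul_zero, zero_mul, mul_zero]
        exact mul_nonneg hc (h4 _)
      | some c =>
        have e0 : kt κ x = a := by unfold kt; rw [hX]; rfl
        have e1 : kt κ y = b := by unfold kt; rw [hy]; rfl
        have e2 : kt κ z = c := by unfold kt; rw [hz]; rfl
        rw [wp_some hX, wp_some hy, wp_some hz, e0, e1, e2]
        change w x * rh w κ α a * (w y * rh w κ α b * (w z * rh w κ α c) *
          (b2r (D6 a b c) * (1 - b2r (E x y z)))) ≤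
          (1 + unO w κ / (3 * m)) ^ 3 * (w x * w y * w z * (b2r (D6 a b c) *
          (1 - b2r (E x y z))))
        by_cases hD : D6 a b c = true
        · obtain ⟨hab, hac, hbc⟩ := D6_ne hD
          have h3 := rh_three (κ := κ) hw hα h1 hm hx hab hac hbc
          have h5 := mul_le_mul_of_nonneg_right h3 (h4 (D6 a b c))
          linarith
        · have : D6 a b c = false := by simpa using hD
          rw [this]
          simp

end

end KW
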