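import Pool.Agent.Helper64.K4.WP3
import Pool.Agent.Helper20.KT.X3

/-!
# The exchange bound for the link inside a class
-/

set_option autoImplicit false

open Finset hiding dens

namespace KW

open KF KT
open KC (wi wo wi_add_wo le_dens_out)

/-! ## Exchange inside a set -/

/-- Pairs of the set `c` from the link of `v`, pairs of the complement from the link of `u`. -/
def exN {V : Type} (E : V → V → V → Bool) (c : V → Bool) (v u y z : V) : Bool :=
  (c y && c z && E v y z) || (!(c y) && !(c z) && E u y z)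

theorem ex_adm {V : Type} [Fintype V] {E : V → V → V → Bool} (hE : K4m E) (c : V → Bool) (v u : V) :
    Adm E (exN E c v u) := by
  refine ⟨fun a b => ?_, fun a => ?_, fun a b d h1 h2 h3 => ?_, fun a b d h1 h2 h3 => ?_⟩
  · unfold exN
    rw [hE.s23 v a b, hE.s23 u a b]
    cases c a <;> cases c b <;> simp
  · unfold exN
    have h1 : ∀ x, E x a a = false := fun x => by
      rw [hE.s12, hE.s23]; exact hE.irr a x
    rw [h1, h1]
    simp
  · unfold exN at h1 h2 h3
    revert h1 h2 h3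
    cases c a <;> cases c b <;> cases c d <;> simp <;> intro h1 h2
    · exact Bool.eq_false_iff.2 fun h3 => (adm_link hE u).tri a b d h1 h2 h3
    · exact Bool.eq_false_iff.2 fun h3 => (adm_link hE v).tri a b d h1 h2 h3
  · unfold exN at h1 h2
    revert h1 h2
    cases c a <;> cases c b <;> cases c d <;> simp <;> intro h1
    · exact Bool.eq_false_iff.2 fun h2 => (adm_link hE u).path a b d h1 h2 h3
    · exact Bool.eq_false_iff.2 fun h2 => (adm_link hE v).path a b d h1 h2 h3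

section
variable {V : Type} [Fintype V] {E : V → V → V → Bool} {w : V → ℝ}

theorem ex_val [DecidableEq V] (c : V → Bool) (v u : V) :
    ∑ y, ∑ z, w y * w z * b2r (exN E c v u y z) =
      deg E (fun x => w x * b2r (c x)) v + deg E (fun x => w x * (1 - b2r (c x))) u := by
  unfold deg exN
  rw [← sum_add_distrib]
  refine sum_congr rfl fun y _ => ?_
  rw [← sum_add_distrib]
  refine sum_congr rfl fun z _ => ?_
  cases hy : c y <;> cases hz : c z <;> simp [hy, hz]

/-- The error of an admissible link. -/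
theorem err_le {d ε : ℝ} (hd : L - d ≤ ε ^ 2) (h0 : 0 < ε) :
    L + (L - d) / (3 * ε) + 2 * ε ≤ L + 3 * ε := by
  have : (L - d) / (3 * ε) ≤ ε := by
    rw [div_le_iff₀ (by positivity)]
    nlinarith
  linarith

/-- Exchange: the link of `v` inside a set is at most the average of what the vertices of the set
lose. -/
theorem exch (ho : Opt E w) {ε : ℝ} (hd : L - dens E w ≤ ε ^ 2) (h0 : 0 < ε) (h1 : ε ≤ 1)
    (c : V → Bool) {q r : V → ℝ} (hq : q = fun x => w x * b2r (c x))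
    (hr : r = fun x => w x * (1 - b2r (c x))) (v : V) :
    (∑ x, q x) * deg E q v ≤ (∑ x, q x) * (4 * ε) + dens E q + 2 * tri E q q r := by
  classical
  have hE := ho.free
  have hq0 : ∀ x, 0 ≤ q x := fun x => by
    rw [hq]; exact mul_nonneg (ho.wt.nn x) (b2r_nonneg _)
  have hqr : w = q + r := by
    rw [hq, hr]
    funext x
    simp only [Pi.add_apply]
    ring
  have h2 : ∀ u, deg E q v + deg E r u ≤ L + 3 * ε := by
    intro u
    have h3 := ineqN hE ho.wt (ex_adm hE c v u) h0 h1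
    rw [Ev_two w (fun x y => b2r (exN E c v u x y)), ex_val] at h3
    rw [hq, hr]
    exact h3.trans (err_le hd h0)
  have h3 : ∑ u, q u * (deg E q v + deg E r u) ≤ ∑ u, q u * (L + 3 * ε) :=
    sum_le_sum fun u _ => mul_le_mul_of_nonneg_left (h2 u) (hq0 u)
  have h4 : ∑ u, q u * (deg E q v + deg E r u) = (∑ x, q x) * deg E q v + tri E q r r := by
    rw [tri_eq_sum E q r r, sum_mul, ← sum_add_distrib]
    exact sum_congr rfl fun u _ => by rw [tri_pt_deg]; ring
  have h5 : tri E q w w = (∑ x, q x) * dens E w := by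
    rw [tri_eq_sum E q w w, sum_mul]
    exact sum_congr rfl fun u _ => by rw [tri_pt_deg, ho.reg]
  have h6 : tri E q w w = dens E q + 2 * tri E q q r + tri E q r r := by
    conv_lhs => rw [hqr]
    rw [tri_add2 hE, tri_add3 hE, tri_add3 hE, tri_swap23 hE q r q, dens_eq_tri]
    ring
  rw [h4, ← sum_mul] at h3
  have hx0 : 0 ≤ ∑ x, q x := sum_nonneg fun x _ => hq0 x
  have h7 : (∑ x, q x) * (L - dens E w) ≤ (∑ x, q x) * ε :=
    mul_le_mul_of_nonneg_left (by nlinarith) hx0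
  nlinarith

end

/-! ## Bad triples with two vertices in a class -/

section
variable {V : Type} [Fintype V] {E : V → V → V → Bool} {W : V → ℝ} {k : V → Fin 6}

/-- The restriction to a class. -/
noncomputable def cI (W : V → ℝ) (k : V → Fin 6) (i : Fin 6) : V → ℝ := fun v => W v * KB.ic k i v
/-- The restriction to the complement of a class. -/
noncomputable def cO (W : V → ℝ) (k : V → Fin 6) (i : Fin 6) : V → ℝ :=
  fun v => W v * (1 - KB.ic k i v)

theorem two_in (a b c i : Fin 6) : b2r (decide (a = i)) * (b2r (decide (b = i)) *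
    (1 - b2r (decide (c = i))) + (1 - b2r (decide (b = i))) * b2r (decide (c = i))) ≤
    b2r (decide (a = i)) * b2r (KB.bad a b c) := by
  have h : ∀ a b c i : Fin 6, (a = i → (b = i ∧ c ≠ i ∨ b ≠ i ∧ c = i) →
    KB.bad a b c = true) := by decide
  by_cases ha : a = i
  · by_cases hb : b = i
    · by_cases hc : c = i
      · simp [ha, hb, hc, b2r_nonneg]
      · rw [h a b c i ha (Or.inl ⟨hb, hc⟩)]
        simp [ha, hb, hc]
    · by_cases hc : c = i
      · rw [h a b c i ha (Or.inr ⟨hb, hc⟩)]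
        simp [ha, hb, hc]
      · simp [ha, hb, hc, b2r_nonneg]
  · simp [ha]

theorem bi_ge (hE : K4m E) (hW : ∀ v, 0 ≤ W v) (i : Fin 6) :
    2 * tri E (cI W k i) (cI W k i) (cO W k i) ≤ KB.bi E W k i := by
  have h1 : 2 * tri E (cI W k i) (cI W k i) (cO W k i) =
      tri E (cI W k i) (cI W k i) (cO W k i) + tri E (cI W k i) (cO W k i) (cI W k i) := by
    rw [tri_swap23 hE (cI W k i) (cO W k i) (cI W k i)]
    ring
  rw [h1]
  unfold tri KB.bi KB.bb
  rw [← sum_add_distrib]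
  refine sum_le_sum fun x _ => ?_
  rw [← sum_add_distrib, mul_sum]
  refine sum_le_sum fun y _ => ?_
  rw [← sum_add_distrib, mul_sum]
  refine sum_le_sum fun z _ => ?_
  have h2 := two_in (k x) (k y) (k z) i
  have h3 : 0 ≤ W x * W y * W z * b2r (E x y z) :=
    mul_nonneg (mul_nonneg (mul_nonneg (hW x) (hW y)) (hW z)) (b2r_nonneg _)
  have h4 := mul_le_mul_of_nonneg_left h2 h3
  unfold cI cO KB.ic
  calc _ = W x * W y * W z * b2r (E x y z) * (b2r (decide (k x = i)) *
        (b2r (decide (k y = i)) * (1 - b2r (decide (k z = i))) +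
          (1 - b2r (decide (k y = i))) * b2r (decide (k z = i)))) := by ring
    _ ≤ _ := h4
    _ = _ := by ring

/-- At most a third of the missing triples start in a given class. -/
theorem three_mi (hE : K4m E) (hW : ∀ v, 0 ≤ W v) (i : Fin 6) :
    3 * KB.mi E W k i ≤ KB.mu E W k := by
  have hcnt : ∀ i a b c : Fin 6, D6 a b c = true →
      (if a = i then 1 else 0) + (if b = i then 1 else 0) + (if c = i then 1 else 0) ≤ (1 : ℕ) := by
    decide
  have h1 : KB.mi E W k i = ∑ x, ∑ y, ∑ z, W x * W y * W z * (KB.ic k i x *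
      (b2r (D6 (k x) (k y) (k z)) * (1 - b2r (E x y z)))) := by
    unfold KB.mi KB.mm
    refine sum_congr rfl fun x _ => ?_
    rw [mul_sum]
    refine sum_congr rfl fun y _ => ?_
    rw [mul_sum]
    exact sum_congr rfl fun z _ => by ring
  rw [h1, mark3 (fun x y z => b2r (D6 (k x) (k y) (k z)) * (1 - b2r (E x y z)))
    (fun x y z => by rw [D6_K4m.s12, hE.s12]) (fun x y z => by rw [D6_K4m.s23, hE.s23])]
  unfold KB.mu KB.mm
  refine sum_le_sum fun x _ => ?_
  rw [mul_sum]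
  refine sum_le_sum fun y _ => ?_
  rw [mul_sum]
  refine sum_le_sum fun z _ => ?_
  have h3 : 0 ≤ W x * W y * W z * (1 - b2r (E x y z)) :=
    mul_nonneg (mul_nonneg (mul_nonneg (hW x) (hW y)) (hW z))
      (by linarith [b2r_le_one (E x y z)])
  have h2 : (KB.ic k i x + KB.ic k i y + KB.ic k i z) * b2r (D6 (k x) (k y) (k z)) ≤
      b2r (D6 (k x) (k y) (k z)) := by
    by_cases hD : D6 (k x) (k y) (k z) = true
    · rw [hD, b2r_true, mul_one]
      have := hcnt i _ _ _ hD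
      have h5 : ((((if k x = i then 1 else 0) + (if k y = i then 1 else 0) +
        (if k z = i then 1 else 0) : ℕ)) : ℝ) ≤ ((1 : ℕ) : ℝ) := Nat.cast_le.2 this
      unfold KB.ic b2r
      push_cast at h5
      simpa using h5
    · have : D6 (k x) (k y) (k z) = false := by simpa using hD
      rw [this]
      simp
  have h4 := mul_le_mul_of_nonneg_left h2 h3
  calc _ = W x * W y * W z * (1 - b2r (E x y z)) *
        ((KB.ic k i x + KB.ic k i y + KB.ic k i z) * b2r (D6 (k x) (k y) (k z))) := by ring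
    _ ≤ _ := h4
    _ = _ := by ring

end

/-! ## The exchange bound in the environment -/

section
variable {V : Type} [Fintype V] {E : V → V → V → Bool} {w : V → ℝ} {κ : V → Option (Fin 6)}
  {α : Fin 6 → ℝ}

/-- Pairs of the link of `v` inside a class. -/
noncomputable def inj (E : V → V → V → Bool) (W : V → ℝ) (k : V → Fin 6) (v : V) (i : Fin 6) : ℝ :=
  ∑ y, ∑ z, W y * W z * (b2r (decide (k y = i)) * b2r (decide (k z = i)) * b2r (E v y z))

theorem inj_eq (E : V → V → V → Bool) (W : V → ℝ) (k : V → Fin 6) (v : V) (i : Fin 6) :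
    inj E W k v i = deg E (cI W k i) v := by
  unfold inj deg cI KB.ic
  exact sum_congr rfl fun y _ => sum_congr rfl fun z _ => by ring

/-- The restriction of the original weights to a class. -/
noncomputable def wq (w : V → ℝ) (κ : V → Option (Fin 6)) (i : Fin 6) : V → ℝ :=
  fun v => w v * icO κ i v

theorem cI_wp (i : Fin 6) : cI (wp w κ α) (kt κ) i = rh w κ α i • wq w κ i := by
  funext v
  unfold cI wq
  rw [wp_ic]
  rfl

theorem wq_sum (i : Fin 6) : ∑ v, wq w κ i v = xsO w κ i := (xsO_eq i).symm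

theorem wq_nn (hw : ∀ v, 0 ≤ w v) (i : Fin 6) (v : V) : 0 ≤ wq w κ i v :=
  mul_nonneg (hw v) (icO_nn i v)

theorem deg_smul (c : ℝ) (q : V → ℝ) (v : V) : deg E (c • q) v = c ^ 2 * deg E q v := by
  unfold deg
  rw [mul_sum]
  refine sum_congr rfl fun y _ => ?_
  rw [mul_sum]
  refine sum_congr rfl fun z _ => ?_
  simp only [Pi.smul_apply, smul_eq_mul]
  ring

theorem tri_mono3 {a b c c' : V → ℝ} (ha : ∀ x, 0 ≤ a x) (hb : ∀ x, 0 ≤ b x)
    (hc : ∀ x, c x ≤ c' x) : tri E a b c ≤ tri E a b c' := by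
  unfold tri
  refine sum_le_sum fun x _ => sum_le_sum fun y _ => sum_le_sum fun z _ => ?_
  exact mul_le_mul_of_nonneg_right (mul_le_mul_of_nonneg_left (hc z) (mul_nonneg (ha x) (hb y)))
    (b2r_nonneg _)

/-- The triples with two vertices in a class and one unassigned vertex. -/
noncomputable def TZ (E : V → V → V → Bool) (w : V → ℝ) (κ : V → Option (Fin 6)) (i : Fin 6) : ℝ :=
  tri E (wq w κ i) (wq w κ i) (wi w (zO κ))

/-- The exchange bound, with the unassigned vertices. -/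
theorem ex_one (ho : Opt E w) (hα : ∀ i, 0 ≤ α i)
    {ε : ℝ} (hd : L - dens E w ≤ ε ^ 2) (h0 : 0 < ε) (h1 : ε ≤ 1) (i : Fin 6) (v : V) :
    rh w κ α i ^ 3 * (xsO w κ i * deg E (wq w κ i) v) ≤
      KB.ei E (wp w κ α) (kt κ) i + rh w κ α i * KB.bi E (wp w κ α) (kt κ) i +
        4 * rh w κ α i ^ 3 * xsO w κ i * ε + 2 * (rh w κ α i ^ 3 * TZ E w κ i) := by
  have hE := ho.free
  have hw := ho.wt.nn
  set ρ := rh w κ α i with hρ
  have hρ1 : 1 ≤ ρ := rh_ge hw hα i
  set q := wq w κ i with hq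
  set r : V → ℝ := fun x => w x * (1 - b2r (decide (κ x = some i))) with hr
  have h2 := exch ho hd h0 h1 (fun x => decide (κ x = some i)) (q := q) (r := r) rfl rfl v
  rw [hq, wq_sum, ← hq] at h2
  -- split the complement
  set r1 : V → ℝ := fun x => w x * (1 - icO κ i x - zO κ x) with hr1
  have h3 : r = r1 + wi w (zO κ) := by
    funext x
    rw [hr, hr1]
    simp only [Pi.add_apply]
    unfold wi icO
    ring
  have h4 : tri E q q r = tri E q q r1 + TZ E w κ i := by
    rw [h3, tri_add3 hE]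
    rfl
  have h5 : ∀ x, r1 x ≤ cO (wp w κ α) (kt κ) i x := by
    intro x
    rw [hr1]
    beta_reduce
    unfold cO
    cases hx : κ x with
    | none =>
      rw [wp_none hx]
      unfold icO zO
      rw [hx]
      simp
    | some j =>
      rw [wp_some hx]
      have h6 : 1 ≤ rh w κ α j := rh_ge hw hα j
      have h7 : KB.ic (kt κ) i x = icO κ i x := by
        unfold KB.ic icO kt
        rw [hx]
        simp
      have h8 : zO κ x = 0 := by
        unfold zO
        rw [hx]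
        simp
      rw [h7, h8]
      have h9 : 0 ≤ 1 - icO κ i x := by linarith [icO_le (κ := κ) i x]
      have h10 : 0 ≤ w x * (1 - icO κ i x) := mul_nonneg (hw x) h9
      nlinarith
  have hq0 : ∀ x, 0 ≤ q x := wq_nn hw i
  have h6 : tri E q q r1 ≤ tri E q q (cO (wp w κ α) (kt κ) i) := tri_mono3 hq0 hq0 h5
  have h7 : 2 * (ρ ^ 2 * tri E q q (cO (wp w κ α) (kt κ) i)) ≤ KB.bi E (wp w κ α) (kt κ) i := by
    have h8 := bi_ge hE (wp_nn (κ := κ) hw hα) (k := kt κ) i
    rw [cI_wp, tri_smul1, tri_smul2 hE] at h8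
    rw [← hρ, ← hq] at h8
    linarith
  have h8 : KB.ei E (wp w κ α) (kt κ) i = ρ ^ 3 * dens E q := by
    rw [KB.ei_eq]
    have := cI_wp (w := w) (κ := κ) (α := α) i
    unfold cI at this
    rw [this, dens_smul]
  have hρ0 : 0 ≤ ρ := by linarith
  have h9 : ρ ^ 3 * (xsO w κ i * deg E q v) ≤
      ρ ^ 3 * (xsO w κ i * (4 * ε) + dens E q + 2 * (tri E q q r1 + TZ E w κ i)) := by
    rw [h4] at h2
    exact mul_le_mul_of_nonneg_left h2 (by positivity)
  have h10 : ρ ^ 3 * (2 * tri E q q r1) ≤ ρ * KB.bi E (wp w κ α) (kt κ) i := by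
    have h11 : ρ ^ 3 * (2 * tri E q q r1) ≤
        ρ ^ 3 * (2 * tri E q q (cO (wp w κ α) (kt κ) i)) :=
      mul_le_mul_of_nonneg_left (by linarith) (by positivity)
    have h12 := mul_le_mul_of_nonneg_left h7 hρ0
    nlinarith
  rw [h8]
  nlinarith

/-- **Exchange bound in the environment.** -/
theorem exch_wp (ho : Opt E w) (hx : ∀ i, 0 < xsO w κ i) (hα : ∀ i, 0 ≤ α i)
    {ε : ℝ} (hd : L - dens E w ≤ ε ^ 2) (h0 : 0 < ε) (h1 : ε ≤ 1) (i : Fin 6)
    (hg : 2 * unO w κ ≤ xsO w κ i) (v : V) :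
    (xsO w κ i - 2 * unO w κ) * (KB.xs (wp w κ α) (kt κ) i * inj E (wp w κ α) (kt κ) v i) ≤
      xsO w κ i * (KB.ei E (wp w κ α) (kt κ) i + rh w κ α i * KB.bi E (wp w κ α) (kt κ) i +
        4 * rh w κ α i ^ 2 * KB.xs (wp w κ α) (kt κ) i * ε) := by
  classical
  have hE := ho.free
  have hw := ho.wt.nn
  have hx' : ∀ i, xsO w κ i ≠ 0 := fun i => (hx i).ne'
  set ρ := rh w κ α i with hρ
  set x := xsO w κ i with hxd
  set g := unO w κ with hgd
  set T := TZ E w κ i with hT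
  set G := KB.ei E (wp w κ α) (kt κ) i + ρ * KB.bi E (wp w κ α) (kt κ) i +
    4 * ρ ^ 3 * x * ε with hG
  have h2 : ∀ v, ρ ^ 3 * (x * deg E (wq w κ i) v) ≤ G + 2 * (ρ ^ 3 * T) := fun v =>
    ex_one ho hα hd h0 h1 i v
  -- the sum over the unassigned vertices
  have h3 : ∑ v, wi w (zO κ) v * (ρ ^ 3 * (x * deg E (wq w κ i) v)) ≤
      ∑ v, wi w (zO κ) v * (G + 2 * (ρ ^ 3 * T)) :=
    sum_le_sum fun v _ => mul_le_mul_of_nonneg_left (h2 v) (mul_nonneg (hw v) (b2r_nonneg _))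
  have h4 : ∑ v, wi w (zO κ) v * (ρ ^ 3 * (x * deg E (wq w κ i) v)) = ρ ^ 3 * (x * T) := by
    rw [hT]
    unfold TZ
    rw [tri_swap13 hE (wq w κ i) (wq w κ i) (wi w (zO κ)), tri_eq_sum, mul_sum, mul_sum]
    exact sum_congr rfl fun v _ => by rw [tri_pt_deg]; ring
  have h5 : ∑ v, wi w (zO κ) v * (G + 2 * (ρ ^ 3 * T)) = g * (G + 2 * (ρ ^ 3 * T)) := by
    rw [← sum_mul]
    rfl
  rw [h4, h5] at h3
  have h6 := h2 v
  have e1 : KB.xs (wp w κ α) (kt κ) i = ρ * x := xs_rh hx' i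
  have e2 : inj E (wp w κ α) (kt κ) v i = ρ ^ 2 * deg E (wq w κ i) v := by
    rw [inj_eq, cI_wp, deg_smul]
  rw [e1, e2]
  have e3 : 4 * ρ ^ 2 * (ρ * x) * ε = 4 * ρ ^ 3 * x * ε := by ring
  rw [e3, ← hG]
  have h7 : (x - 2 * g) * (ρ ^ 3 * (x * deg E (wq w κ i) v)) ≤
      (x - 2 * g) * (G + 2 * (ρ ^ 3 * T)) :=
    mul_le_mul_of_nonneg_left h6 (by linarith)
  nlinarith

/-- The inequality for an unassigned vertex, real numbers. -/
theorem vertex_real {l x x' ρ g ε D M b e I P K d lm mu SC VN CPi CPo Qb : ℝ} (hl : 2 / 7 ≤ l)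
    (hxp : 0 < x') (hgx : 2 * g < x) (hρ1 : 1 ≤ ρ) (h0 : 0 ≤ ε) (hg : 0 < g)
    (hb : 0 ≤ b) (hD : D = l * x' ^ 3 - e) (hD0 : 0 ≤ D)
    (hlam : x' * lm = x' * P - M + b + e) (hv : lm + 2 * K / g - 11 / 6 * g ^ 2 ≤ d)
    (hSC : 0 ≤ SC) (hQ0 : 0 ≤ Qb) (hQ1 : 7 * Qb * (x * ρ) ≤ 36 * SC * (x - 2 * g))
    (hlink : 36 * SC * (d - P) ≤ VN + 72 / 7 * SC * x' ^ 2 + CPi * (3 * M) +
      CPo * (mu - 3 * M) + Qb * (7 * I - 2 * x' ^ 2))
    (hex : (x - 2 * g) * (x' * I) ≤ x * (e + ρ * b + 4 * ρ ^ 2 * x' * ε)) :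
    36 * SC * (2 * K / g) ≤ VN + 66 * SC * g ^ 2 + CPi * (3 * M) + CPo * (mu - 3 * M) +
      36 * SC * (M / x') + (36 * SC - 7 * Qb) * (D / x') + 4 * Qb * g * x' ^ 2 / (x - 2 * g) +
      144 * SC * ρ * ε := by
  have hy : 0 < x - 2 * g := by linarith
  have hx0 : 0 < x := by linarith
  set θ := x / (x - 2 * g) with hθ
  have hθ1 : θ = 1 + 2 * g / (x - 2 * g) := by
    rw [hθ]
    field_simp
    ring
  have hθ0 : 1 ≤ θ := by
    rw [hθ1]
    have : 0 ≤ 2 * g / (x - 2 * g) := by positivity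
    linarith
  have h1 : x' * I ≤ θ * (e + ρ * b + 4 * ρ ^ 2 * x' * ε) := by
    have : x' * I ≤ x * (e + ρ * b + 4 * ρ ^ 2 * x' * ε) / (x - 2 * g) := by
      rw [le_div_iff₀ hy]
      linarith
    calc x' * I ≤ x * (e + ρ * b + 4 * ρ ^ 2 * x' * ε) / (x - 2 * g) := this
      _ = θ * (e + ρ * b + 4 * ρ ^ 2 * x' * ε) := by rw [hθ]; ring
  have hQ2 : 7 * Qb * (θ * ρ) ≤ 36 * SC := by
    have : 7 * Qb * (x * ρ) / (x - 2 * g) ≤ 36 * SC := by
      rw [div_le_iff₀ hy]
      exact hQ1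
    calc 7 * Qb * (θ * ρ) = 7 * Qb * (x * ρ) / (x - 2 * g) := by rw [hθ]; ring
      _ ≤ _ := this
  -- multiply everything by `x'`
  have h2 : 36 * SC * (x' * (2 * K / g)) ≤ 36 * SC * (x' * (d - lm + 11 / 6 * g ^ 2)) := by
    refine mul_le_mul_of_nonneg_left (mul_le_mul_of_nonneg_left (by linarith) hxp.le)
      (by positivity)
  have h3 : x' * (36 * SC * (d - P)) ≤ x' * (VN + 72 / 7 * SC * x' ^ 2 + CPi * (3 * M) +
      CPo * (mu - 3 * M) + Qb * (7 * I - 2 * x' ^ 2)) := mul_le_mul_of_nonneg_left hlink hxp.le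
  have h4 : 7 * Qb * (x' * I) ≤ 7 * Qb * (θ * (e + ρ * b + 4 * ρ ^ 2 * x' * ε)) :=
    mul_le_mul_of_nonneg_left h1 (by positivity)
  have h5 : 7 * Qb * (θ * ρ) * b ≤ 36 * SC * b := mul_le_mul_of_nonneg_right hQ2 hb
  have h6 : 7 * Qb * (θ * ρ) * (4 * ρ * x' * ε) ≤ 36 * SC * (4 * ρ * x' * ε) :=
    mul_le_mul_of_nonneg_right hQ2 (by positivity)
  have h7 : 7 * Qb * θ ≤ 36 * SC := by
    have a1 : 7 * Qb * θ ≤ 7 * Qb * (θ * ρ) := by
      have : 0 ≤ 7 * Qb * θ := by positivity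
      nlinarith
    linarith
  have h8 : (36 * SC - 7 * Qb * θ) * (2 / 7 * x' ^ 3) ≤ (36 * SC - 7 * Qb * θ) * (l * x' ^ 3) :=
    mul_le_mul_of_nonneg_left (mul_le_mul_of_nonneg_right hl (by positivity)) (by linarith)
  have h9 : 7 * Qb * D ≤ 7 * Qb * θ * D := by
    have a1 : 0 ≤ 7 * Qb * D := by positivity
    nlinarith
  have h10 : x' * (36 * SC * (2 * K / g)) ≤ x' * (VN + 66 * SC * g ^ 2 + CPi * (3 * M) +
      CPo * (mu - 3 * M)) + 36 * SC * M + (36 * SC - 7 * Qb) * D +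
      2 * Qb * (θ - 1) * x' ^ 3 + 144 * SC * ρ * ε * x' := by
    have e1 : e = l * x' ^ 3 - D := by linarith
    rw [e1] at h4 hlam
    nlinarith
  have e2 : 4 * Qb * g * x' ^ 2 / (x - 2 * g) = 2 * Qb * (θ - 1) * x' ^ 2 := by
    rw [hθ1]
    field_simp
    ring
  rw [e2]
  refine le_of_mul_le_mul_left ?_ hxp
  refine h10.trans (le_of_eq ?_)
  field_simp

end

end KW
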