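import Pool.Agent.Helper64.K4.WP6
import Pool.Agent.Helper85.LR.D

/-!
# The link step
-/

set_option autoImplicit false

open Finset hiding dens

namespace KW

open KF KT
open KC (wi wo wi_add_wo le_dens_out)

section
variable {V : Type} [Fintype V] {E : V → V → V → Bool} {w : V → ℝ} {κ : V → Option (Fin 6)}
  {α : Fin 6 → ℝ}

/-- Sizes from the sum of the squares. -/
theorem size_abs {τ : ℝ} (hτ : 0 ≤ τ) {x : Fin 6 → ℝ} (h : ∑ j, (x j - 1 / 6) ^ 2 ≤ τ ^ 2)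
    (i : Fin 6) : |x i - 1 / 6| ≤ τ := by
  have h1 : (x i - 1 / 6) ^ 2 ≤ τ ^ 2 :=
    (single_le_sum (f := fun j => (x j - 1 / 6) ^ 2) (fun j _ => sq_nonneg _) (mem_univ i)).trans h
  exact abs_le_of_sq_le_sq h1 hτ

/-- **The link step**: a link lemma bounds the energy. -/
theorem link_step (ho : Opt E w) (hx : ∀ i, 0 < xsO w κ i) (hα : ∀ i, 0 ≤ α i)
    (h1s : ∑ i, α i = 1)
    (hb : ∀ b, unO w κ * lam E w κ α b ≤ unO w κ * lst E w κ α)
    {ε : ℝ} (hd : L - dens E w ≤ ε ^ 2) (h0 : 0 < ε) (h1 : ε ≤ 1) (hg : 0 < unO w κ)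
    {τ m a ci co QL QH : ℝ} (hLL : LR.LinkL τ m a (72 / 7) ci co QL QH)
    (hsz : ∑ j, (KB.xs (wp w κ α) (kt κ) j - 1 / 6) ^ 2 ≤ τ ^ 2) (hτ : 0 ≤ τ)
    (hτg : τ + 20 * unO w κ ≤ 1 / 6)
    (hmo : ∀ v, κ v = none → ∀ i : Fin 6, m ≤ mo E w κ (some i) v)
    (hQL : 0 ≤ QL) (hQH : (7 * QH + 72) * unO w κ ≤ (36 - 7 * QH) * (1 / 6 - τ - unO w κ))
    (hco : co ≤ ci + 36) :
    72 * (EK E w (up w κ α) / unO w κ) ≤ a + 66 * unO w κ ^ 2 +
      (ci + 72 / (1 - 6 * τ)) * KB.mu E (wp w κ α) (kt κ) +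
      (36 - 7 * QL) * (6 / (1 - 6 * τ)) * ∑ j, df E (wp w κ α) (kt κ) j +
      4 * QH * unO w κ * (1 / 6 + τ + 18 / 5 * unO w κ) + 288 * ε := by
  have hw := ho.wt.nn
  have hx' : ∀ i, xsO w κ i ≠ 0 := fun i => (hx i).ne'
  have hW := Wt_wp (α := α) ho.wt hx' hα h1s
  obtain ⟨v, hv0, hv⟩ := exists_Z ho hx' hα h1s hg hb
  obtain ⟨i, Qb, q1, q2, hl⟩ := hLL V _ E (wp w κ α) (kt κ) ho.free hW hsz v
    (fun i => (hmo v hv0 i).trans (le_mv hw hα i v))
  have hs := abs_le.1 (size_abs hτ hsz i)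
  have e1 := xs_wp (α := α) hx' i
  have hαi : α i ≤ 1 := by
    rw [← h1s]
    exact single_le_sum (f := α) (fun l _ => hα l) (mem_univ i)
  have hgα : unO w κ * α i ≤ unO w κ := by nlinarith
  have e2 : 1 / 6 - τ - unO w κ ≤ xsO w κ i := by linarith [hs.1]
  have hx18 : 18 * unO w κ ≤ xsO w κ i := by linarith
  have e3 := xs_rh (α := α) hx' i
  have hQH0 : 0 ≤ QH := hQL.trans (q1.trans q2)
  have hQH36 : 7 * QH ≤ 36 := by
    by_contra hcon
    push Not at hcon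
    have a1 : 0 < (7 * QH + 72) * unO w κ := by positivity
    have a2 : (36 - 7 * QH) * (1 / 6 - τ - unO w κ) ≤ 0 :=
      mul_nonpos_of_nonpos_of_nonneg (by linarith) (by linarith)
    linarith
  have hQ1 : 7 * QH * (xsO w κ i * rh w κ α i) ≤ 36 * 1 * (xsO w κ i - 2 * unO w κ) := by
    rw [mul_comm (xsO w κ i), ← e3, e1]
    have a1 : (36 - 7 * QH) * (1 / 6 - τ - unO w κ) ≤ (36 - 7 * QH) * xsO w κ i :=
      mul_le_mul_of_nonneg_left e2 (by linarith)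
    have a2 : 7 * QH * (unO w κ * α i) ≤ 7 * QH * unO w κ :=
      mul_le_mul_of_nonneg_left hgα (by positivity)
    nlinarith
  set X := KB.xs (wp w κ α) (kt κ) i with hX
  have hτ6 : 0 < 1 - 6 * τ := by linarith
  have hXl : (1 - 6 * τ) / 6 ≤ X := by linarith [hs.1]
  have hX0 : 0 < X := by linarith
  have hXu : X ≤ 1 / 6 + τ := by linarith [hs.2]
  have hCP : co ≤ ci + 12 * 1 / X := by
    have : 36 ≤ 12 * 1 / X := by
      rw [le_div_iff₀ hX0]
      linarith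
    linarith
  have h2 := vertex2 ho hx hα h1s hd h0 h1 hg hx18 (hv i) (SC := 1) (VN := a) (CPi := ci)
    (CPo := co) (QL := QL) (QH := QH) zero_le_one q1 (hQL.trans q1) q2 hQ1 hCP (by
      have e : inj E (wp w κ α) (kt κ) v i = LR.ins E (kt κ) v (wp w κ α) i := rfl
      rw [e, ← hX]
      linarith)
  rw [← hX] at h2
  have hmu : 0 ≤ KB.mu E (wp w κ α) (kt κ) :=
    sum_nonneg fun x _ => mul_nonneg (hW.nn x) (KB.mm_nn hW x)
  have hdi : df E (wp w κ α) (kt κ) i ≤ ∑ j, df E (wp w κ α) (kt κ) j :=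
    single_le_sum (f := fun j => df E (wp w κ α) (kt κ) j)
      (fun j _ => df_nn ho.free hW j) (mem_univ i)
  have hdi0 : 0 ≤ df E (wp w κ α) (kt κ) i := df_nn ho.free hW i
  have b1 : 12 * 1 / X ≤ 72 / (1 - 6 * τ) := by
    rw [div_le_div_iff₀ hX0 hτ6]
    linarith
  have b2 : (ci + 12 * 1 / X) * KB.mu E (wp w κ α) (kt κ) ≤
      (ci + 72 / (1 - 6 * τ)) * KB.mu E (wp w κ α) (kt κ) :=
    mul_le_mul_of_nonneg_right (by linarith) hmu
  have b3 : df E (wp w κ α) (kt κ) i / X ≤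
      6 / (1 - 6 * τ) * ∑ j, df E (wp w κ α) (kt κ) j := by
    have a1 : df E (wp w κ α) (kt κ) i / X ≤ df E (wp w κ α) (kt κ) i / ((1 - 6 * τ) / 6) :=
      div_le_div_of_nonneg_left hdi0 (by positivity) hXl
    have a2 : df E (wp w κ α) (kt κ) i / ((1 - 6 * τ) / 6) =
        6 / (1 - 6 * τ) * df E (wp w κ α) (kt κ) i := by
      field_simp
    have a3 : 6 / (1 - 6 * τ) * df E (wp w κ α) (kt κ) i ≤
        6 / (1 - 6 * τ) * ∑ j, df E (wp w κ α) (kt κ) j :=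
      mul_le_mul_of_nonneg_left hdi (by positivity)
    linarith
  have b4 : (36 * 1 - 7 * QL) * (df E (wp w κ α) (kt κ) i / X) ≤
      (36 * 1 - 7 * QL) * (6 / (1 - 6 * τ) * ∑ j, df E (wp w κ α) (kt κ) j) := by
    refine mul_le_mul_of_nonneg_left b3 ?_
    linarith
  have b5 : 4 * QH * unO w κ * (X + 18 / 5 * unO w κ) ≤
      4 * QH * unO w κ * (1 / 6 + τ + 18 / 5 * unO w κ) :=
    mul_le_mul_of_nonneg_left (by linarith) (by positivity)
  have b6 : 144 * 1 * rh w κ α i * ε ≤ 288 * ε := by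
    have a1 : rh w κ α i ≤ 2 := by
      unfold rh
      have : unO w κ * α i / xsO w κ i ≤ 1 := by
        rw [div_le_one (hx i)]
        linarith
      linarith
    nlinarith
  have e4 : 72 * 1 * (EK E w (up w κ α) / unO w κ) = 72 * (EK E w (up w κ α) / unO w κ) := by
    ring
  have e5 : 66 * 1 * unO w κ ^ 2 = 66 * unO w κ ^ 2 := by ring
  rw [e4, e5] at h2
  have e6 : (36 - 7 * QL) * (6 / (1 - 6 * τ)) * ∑ j, df E (wp w κ α) (kt κ) j =
      (36 * 1 - 7 * QL) * (6 / (1 - 6 * τ) * ∑ j, df E (wp w κ α) (kt κ) j) := by ring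
  rw [e6]
  linarith

end

end KW
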